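import Pool.Agent.W_8dd142_h88.FO
import Pool.Agent.W_MP_0bf392_lc.RO

/-!
# The forcing relation (MP_8dd142_lc)

`P` is any preorder, `RO P` its regular open algebra. `Fc p Q v`: the condition `p` forces the
property `Q` of the names `v 0, v 1, …`, i.e. `Q` holds in the quotient of the Boolean-valued
universe by every ultrafilter which contains `gen p`.
-/

universe u

namespace TKF

open IM IM.BSet BVM

/-! ### Boolean algebra and ultrafilters -/

section alg

variable {D : Type u} [CompleteBooleanAlgebra D]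

theorem le_iff_uf {a b : D} : a ≤ b ↔ ∀ lam : D → Prop, IsUF lam → lam a → lam b := by
  constructor
  · intro h lam hl ha
    exact hl.mono h ha
  · intro h
    by_contra hab
    have hne : a ⊓ bᶜ ≠ ⊥ := by
      intro h0
      apply hab
      rw [← disjoint_iff, disjoint_compl_right_iff] at h0
      exact h0
    obtain ⟨lam, hl, h1⟩ := exists_isUF hne
    obtain ⟨h2, h3⟩ := hl.inf_iff.1 h1
    exact hl.compl_iff.1 h3 (h lam hl h2)

theorem eq_bot_iff_uf {a : D} : a = ⊥ ↔ ∀ lam : D → Prop, IsUF lam → ¬ lam a := by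
  constructor
  · rintro rfl lam hl h
    exact hl.bot h
  · intro h
    by_contra hne
    obtain ⟨lam, hl, h1⟩ := exists_isUF hne
    exact h lam hl h1

theorem eq_top_iff_uf {a : D} : a = ⊤ ↔ ∀ lam : D → Prop, IsUF lam → lam a := by
  constructor
  · rintro rfl lam hl
    exact hl.top
  · intro h
    rw [eq_top_iff, le_iff_uf]
    exact fun lam hl _ => h lam hl

variable {Q R : ∀ X : Type (u + 1), (X → X → Prop) → (ℕ → X) → Prop}

/-- The truth value of a first-order property. -/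
noncomputable def tvq (hQ : FO Q) (v : ℕ → BSet D) : D := tv hQ.choose v

theorem tvq_iff (hQ : FO Q) (v : ℕ → BSet D) {lam : D → Prop} (hl : IsUF lam) :
    lam (tvq hQ v) ↔ Q (X hl) (E hl) (fun n => val hl (v n)) := by
  unfold tvq
  rw [← sat_iff hl, hQ.choose_spec]

/-- A first-order property of a member of a family of names passes to mixtures of the family. -/
theorem mix {ι : Type*} {c : ι → BSet D} (hQ : FO Q) {v : ℕ → BSet D} (a : D)
    (h : ∀ (i : ι) (lam : D → Prop) (hl : IsUF lam), lam a →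
      Q (X hl) (E hl) (fun n => val hl (cons (c i) v n)))
    {lam : D → Prop} (hl : IsUF lam) (ha : lam a) {x : BSet D} (hx : lam (⨆ i, beq x (c i))) :
    Q (X hl) (E hl) (fun n => val hl (cons x v n)) := by
  rw [← tvq_iff hQ _ hl]
  have h1 : a ⊓ (⨆ i, beq x (c i)) ≤ tvq hQ (cons x v) := by
    rw [inf_iSup_eq]
    refine iSup_le fun i => ?_
    rw [le_iff_uf]
    intro lam hl h2
    obtain ⟨h3, h4⟩ := hl.inf_iff.1 h2
    rw [tvq_iff hQ _ hl]
    have h5 := h i lam hl h3
    have h6 : (fun n => val hl (cons (c i) v n)) = fun n => val hl (cons x v n) := by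
      funext n
      cases n with
      | zero => exact (val_eq.2 h4).symm
      | succ n => rfl
    rw [← h6]
    exact h5
  exact hl.mono h1 (hl.inf ha hx)

/-- `mix` without a condition. -/
theorem mix' {ι : Type*} {c : ι → BSet D} (hQ : FO Q) {v : ℕ → BSet D}
    (h : ∀ (i : ι) (lam : D → Prop) (hl : IsUF lam),
      Q (X hl) (E hl) (fun n => val hl (cons (c i) v n)))
    {lam : D → Prop} (hl : IsUF lam) {x : BSet D} (hx : lam (⨆ i, beq x (c i))) :
    Q (X hl) (E hl) (fun n => val hl (cons x v n)) :=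
  mix hQ ⊤ (fun i lam hl _ => h i lam hl) hl hl.top hx

/-- Fullness: an existential statement true in all quotients by ultrafilters containing `a` has a
single witness. -/
theorem exists_witness {Q : ∀ X : Type (u + 1), (X → X → Prop) → (ℕ → X) → Prop} (hQ : FO Q)
    (v : ℕ → BSet D) (a : D) (h : ∀ (lam : D → Prop) (hl : IsUF lam), lam a →
      ∃ z, Q (X hl) (E hl) (cons z fun n => val hl (v n))) :
    ∃ z : BSet D, ∀ (lam : D → Prop) (hl : IsUF lam), lam a →
      Q (X hl) (E hl) (fun n => val hl (cons z v n)) := by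
  obtain ⟨z, hz⟩ := full1 (fun z => tv hQ.choose (cons z v)) (ext1_tv _ _)
  refine ⟨z, fun lam hl ha => ?_⟩
  rw [← tvq_iff hQ _ hl]
  change lam (tv hQ.choose (cons z v))
  rw [← hz]
  obtain ⟨x, hx⟩ := h lam hl ha
  obtain ⟨x, rfl⟩ := exists_name x
  rw [← comp_cons (val hl)] at hx
  have h1 := (tvq_iff hQ (cons x v) hl).2 hx
  exact hl.mono (le_iSup (fun z => tv hQ.choose (cons z v)) x) h1

end alg

/-! ### Forcing -/

variable {P : Type u} [Preorder P]

/-- The regular open set generated by `p`. -/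
def gen (p : P) : RO P := RO.cl {p}

theorem mem_gen (p : P) : p ∈ (gen p).1 := fun q hq => ⟨q, le_refl q, p, rfl, hq⟩

theorem gen_le_iff {p : P} {a : RO P} : gen p ≤ a ↔ p ∈ a.1 := by
  constructor
  · intro h
    exact h (mem_gen p)
  · intro h q hq
    refine RO.mem_of_dense fun r hr => ?_
    obtain ⟨s, hs, t, rfl, hst⟩ := hq r hr
    exact ⟨s, hs, RO.mem_lower h hst⟩

theorem gen_mono {p q : P} (h : q ≤ p) : gen q ≤ gen p :=
  gen_le_iff.2 (RO.mem_lower (mem_gen p) h)

theorem gen_ne_bot (p : P) : gen p ≠ ⊥ := by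
  intro h
  have := mem_gen p
  rw [h] at this
  exact RO.mem_bot p this

theorem exists_gen {a : RO P} (ha : a ≠ ⊥) : ∃ p, gen p ≤ a := by
  by_contra hcon
  push Not at hcon
  apply ha
  rw [eq_bot_iff]
  intro p hp
  exact absurd (gen_le_iff.2 hp) (hcon p)

/-- Two conditions with a common ultrafilter are compatible. -/
theorem exists_common {p q : P} {lam : RO P → Prop} (hl : IsUF lam) (hp : lam (gen p))
    (hq : lam (gen q)) : ∃ r, r ≤ p ∧ r ≤ q := by
  by_contra hcon
  push Not at hcon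
  refine hl.bot (hl.mono ?_ (hl.inf hp hq))
  intro r hr
  exfalso
  obtain ⟨s, hs, t, rfl, hst⟩ := hr.1 r (le_refl r)
  obtain ⟨s', hs', t', rfl, hst'⟩ := hr.2 s hs
  exact hcon s' (hs'.trans hst) hst'

/-- `p` forces `Q` of the names `v 0, v 1, …`. -/
def Fc (p : P) (Q : ∀ X : Type (u + 1), (X → X → Prop) → (ℕ → X) → Prop)
    (v : ℕ → BSet (RO P)) : Prop :=
  ∀ (lam : RO P → Prop) (hl : IsUF lam), lam (gen p) → Q (X hl) (E hl) (fun n => val hl (v n))

variable {Q R : ∀ X : Type (u + 1), (X → X → Prop) → (ℕ → X) → Prop} {v : ℕ → BSet (RO P)}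

theorem fc_iff (hQ : FO Q) {p : P} : Fc p Q v ↔ p ∈ (tvq hQ v).1 := by
  rw [← gen_le_iff, le_iff_uf]
  exact forall_congr' fun lam => forall_congr' fun hl => imp_congr_right fun _ =>
    (tvq_iff hQ v hl).symm

theorem Fc.mono {p q : P} (h : Fc p Q v) (hq : q ≤ p) : Fc q Q v :=
  fun lam hl hlam => h lam hl (hl.mono (gen_mono hq) hlam)

theorem Fc.imp {p : P} (h : Fc p Q v) (h' : ∀ X E w, Q X E w → R X E w) : Fc p R v :=
  fun lam hl hlam => h' _ _ _ (h lam hl hlam)

theorem Fc.dense (hQ : FO Q) {p : P} (h : ∀ q ≤ p, ∃ r ≤ q, Fc r Q v) : Fc p Q v := by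
  rw [fc_iff hQ]
  refine RO.mem_of_dense fun q hq => ?_
  obtain ⟨r, hr, hr'⟩ := h q hq
  exact ⟨r, hr, (fc_iff hQ).1 hr'⟩

/-- Every condition can be extended to one which decides `Q`. -/
theorem Fc.dec (hQ : FO Q) (v : ℕ → BSet (RO P)) (p : P) :
    ∃ q ≤ p, Fc q Q v ∨ Fc q (fun X E v => ¬ Q X E v) v := by
  by_cases h : ∃ q ≤ p, Fc q Q v
  · obtain ⟨q, hq, h1⟩ := h
    exact ⟨q, hq, Or.inl h1⟩
  · push Not at h
    refine ⟨p, le_refl p, Or.inr ?_⟩
    intro lam hl hp hQ'
    rw [← tvq_iff hQ v hl] at hQ'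
    have hne : gen p ⊓ tvq hQ v ≠ ⊥ := by
      intro h0
      apply hl.bot
      rw [← h0]
      exact hl.inf hp hQ'
    obtain ⟨q, hq⟩ := exists_gen hne
    obtain ⟨r, hr, t, rfl, hrt⟩ := gen_le_iff.1 (hq.trans inf_le_left) q (le_refl q)
    exact h r hrt ((fc_iff hQ).2 (RO.mem_lower (gen_le_iff.1 (hq.trans inf_le_right)) hr))

theorem Fc.of_not {p : P} (hQ : FO Q) (h : ¬ Fc p Q v) :
    ∃ q ≤ p, Fc q (fun X E v => ¬ Q X E v) v := by
  by_contra hcon
  push Not at hcon
  apply h
  refine Fc.dense hQ fun q hq => ?_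
  obtain ⟨r, hr, h1 | h1⟩ := Fc.dec hQ v q
  · exact ⟨r, hr, h1⟩
  · exact absurd h1 (hcon r (hr.trans hq))

/-- A statement true in some quotient is forced by some condition. -/
theorem Fc.of_true (hQ : FO Q) {lam : RO P → Prop} (hl : IsUF lam) {p : P} (hp : lam (gen p))
    (h : Q (X hl) (E hl) (fun n => val hl (v n))) : ∃ q ≤ p, Fc q Q v := by
  obtain ⟨q, hq⟩ := exists_gen (a := gen p ⊓ tvq hQ v) (by
    intro h0
    apply hl.bot
    rw [← h0]
    exact hl.inf hp ((tvq_iff hQ v hl).2 h))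
  obtain ⟨r, hr, t, rfl, hrt⟩ := gen_le_iff.1 (hq.trans inf_le_left) q (le_refl q)
  exact ⟨r, hrt, (fc_iff hQ).2 (RO.mem_lower (gen_le_iff.1 (hq.trans inf_le_right)) hr)⟩

theorem exists_uf (p : P) : ∃ lam : RO P → Prop, IsUF lam ∧ lam (gen p) := exists_isUF (gen_ne_bot p)

/-- A false statement is not forced. -/
theorem Fc.false {p : P} (h : ∀ (lam : RO P → Prop) (_ : IsUF lam), lam (gen p) → False) :
    False := by
  obtain ⟨lam, hl, hp⟩ := exists_uf p
  exact h lam hl hp

/-- If some element of a family of truth values is in an ultrafilter, a condition picks an index. -/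
theorem exists_index {ι : Type*} {b : ι → RO P} {p : P} (h : gen p ≤ ⨆ i, b i) :
    ∃ q ≤ p, ∃ i, gen q ≤ b i := by
  obtain ⟨q, hq, i, hi⟩ := (RO.mem_iSup b p).1 (gen_le_iff.1 h) p (le_refl p)
  exact ⟨q, hq, i, gen_le_iff.2 hi⟩

/-! ### Countably closed preorders -/

/-- Every decreasing sequence has a lower bound. -/
def SigmaClosed (P : Type u) [Preorder P] : Prop :=
  ∀ s : ℕ → P, (∀ n, s (n + 1) ≤ s n) → ∃ q, ∀ n, q ≤ s n

theorem anti_le {s : ℕ → P} (hs : ∀ n, s (n + 1) ≤ s n) {m n : ℕ} (h : m ≤ n) : s n ≤ s m := by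
  induction n, h using Nat.le_induction with
  | base => exact le_refl _
  | succ n _ ih => exact (hs n).trans ih

/-- Countably many open dense sets can be met. -/
theorem SigmaClosed.meet (hP : SigmaClosed P) (p : P) (D : ℕ → P → Prop)
    (hop : ∀ n q r, D n q → r ≤ q → D n r) (hd : ∀ n, ∀ q ≤ p, ∃ r ≤ q, D n r) :
    ∃ q ≤ p, ∀ n, D n q := by
  classical
  choose! f hf hf' using hd
  let s : ℕ → P := fun n => Nat.rec p (fun n q => f n q) n
  have hs0 : s 0 = p := rfl
  have hsn : ∀ n, s (n + 1) = f n (s n) := fun n => rfl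
  have hsp : ∀ n, s n ≤ p := by
    intro n
    induction n with
    | zero => exact le_refl _
    | succ n ih =>
      rw [hsn]
      exact (hf n _ ih).trans ih
  obtain ⟨q, hq⟩ := hP s fun n => by
    rw [hsn]
    exact hf n _ (hsp n)
  refine ⟨q, hq 0, fun n => hop n _ _ ?_ (hq (n + 1))⟩
  rw [hsn]
  exact hf' n _ (hsp n)

/-- Version of `meet` for a countable index type. -/
theorem SigmaClosed.meet' (hP : SigmaClosed P) {ι : Type*} [Countable ι] (p : P)
    (D : ι → P → Prop) (hop : ∀ n q r, D n q → r ≤ q → D n r)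
    (hd : ∀ n, ∀ q ≤ p, ∃ r ≤ q, D n r) : ∃ q ≤ p, ∀ n, D n q := by
  rcases isEmpty_or_nonempty ι with hι | hι
  · exact ⟨p, le_refl p, fun n => hι.elim n⟩
  · obtain ⟨e, he⟩ := exists_surjective_nat ι
    obtain ⟨q, hq, h⟩ := hP.meet p (fun n => D (e n)) (fun n => hop _) (fun n => hd _)
    refine ⟨q, hq, fun i => ?_⟩
    obtain ⟨n, rfl⟩ := he i
    exact h n

end TKF
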