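import Pool.Agent.W_MP_8dd142_lc.Final
import Pool.Agent.W_8dd142_h88.Force

/-!
# The forcing notion: countable systems (MP_8dd142_lc)
-/

namespace TKF

open Pool.MP_8dd142_lc.W Node Set

/-- Conditions: countable systems. -/
def Cond : Type 1 := {S : Sys // S.Ctb}

instance : Preorder Cond where
  le S' S := S.1.Ext S'.1
  le_refl S := Sys.Ext.refl _
  le_trans _ _ _ h h' := h'.trans h

theorem Cond.le_def (p q : Cond) : q ≤ p ↔ p.1.Ext q.1 := Iff.rfl

theorem cond_sigma : SigmaClosed Cond := by
  intro s hs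
  have hd : Sys.Dir fun n => (s n).1 := by
    intro i j
    exact ⟨max i j, anti_le hs (le_max_left i j), anti_le hs (le_max_right i j)⟩
  refine ⟨⟨Sys.union (fun n => (s n).1) hd, ?_, ?_⟩, fun n => Sys.ext_union _ hd n⟩
  · exact (countable_iUnion fun n => (s n).2.1).mono fun b hb => mem_iUnion.2 hb
  · exact (countable_iUnion fun n => (s n).2.2).mono fun b hb => mem_iUnion.2 hb

end TKF
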