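import Pool.Agent.W_MP_0bf392_lc.Defs

/-!
# Set-theoretic notions in a structure (MP_8dd142_lc)

`E` is the membership relation of the structure `X`; all quantifiers range over `X`. For a model
of ZFC these are the usual notions of the model.
-/

universe v

namespace TKF

section notions

variable {X : Type v} (E : X → X → Prop)

/-- `a ⊆ b` -/
def Sub (a b : X) : Prop := ∀ z, E z a → E z b

/-- `a = ∅` -/
def IsEmp (a : X) : Prop := ∀ z, ¬ E z a

/-- `b = a ∪ {a}` -/
def IsSuc (b a : X) : Prop := ∀ z, E z b ↔ E z a ∨ z = a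

/-- `a` contains `∅` and is closed under successors -/
def IsInd (a : X) : Prop :=
  (∃ e, IsEmp E e ∧ E e a) ∧ ∀ x, E x a → ∃ y, IsSuc E y x ∧ E y a

/-- `w = ω`, the least inductive set -/
def IsOmega (w : X) : Prop := IsInd E w ∧ ∀ a, IsInd E a → Sub E w a

/-- `c = {a, b}` -/
def IsUPair (c a b : X) : Prop := ∀ z, E z c ↔ z = a ∨ z = b

/-- `p = (a, b) = {{a}, {a, b}}` -/
def IsPair (p a b : X) : Prop := ∃ s d, IsUPair E s a a ∧ IsUPair E d a b ∧ IsUPair E p s d

/-- `(a, b) ∈ f` -/
def App (f a b : X) : Prop := ∃ p, IsPair E p a b ∧ E p f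

/-- `f` is a map from the set `a` to the set `b` -/
def IsMap (f a b : X) : Prop := (∀ p, E p f → ∃ x y, IsPair E p x y ∧ E x a ∧ E y b) ∧
  ∀ x, E x a → ∃ y, App E f x y ∧ ∀ y', App E f x y' → y' = y

/-- `a` is finite: every nonempty set of subsets of `a` has a maximal element -/
def IsFin (a : X) : Prop := ∀ c, (∃ t, E t c) → (∀ t, E t c → Sub E t a) →
  ∃ t, E t c ∧ ∀ t', E t' c → Sub E t t' → t' = t

/-- `d` is the set of all finite subsets of `w` -/
def IsFinSubsets (w d : X) : Prop := ∀ s, E s d ↔ IsFin E s ∧ Sub E s w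

/-- `d` is the set of all finite sets of subsets of `w` -/
def IsFinFamilies (w d : X) : Prop := ∀ s, E s d ↔ IsFin E s ∧ ∀ x, E x s → Sub E x w

/-- `U` is an ultrafilter on the set `w` -/
def IsUltra (w U : X) : Prop := (∀ x, E x U → Sub E x w) ∧ E w U ∧ (∀ x, IsEmp E x → ¬ E x U) ∧
  (∀ x y, E x U → Sub E x y → Sub E y w → E y U) ∧
  (∀ x y z, E x U → E y U → (∀ n, E n z ↔ E n x ∧ E n y) → E z U) ∧
  ∀ x y, Sub E x w → (∀ n, E n y ↔ E n w ∧ ¬ E n x) → E x U ∨ E y U

/-- `C` is a cofinal subset (a base) of `U` -/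
def IsCofinal (C U : X) : Prop := Sub E C U ∧ ∀ x, E x U → ∃ y, E y C ∧ Sub E y x

/-- The ultrafilter `U` on `w = ω` is of maximum Tukey type: there is a map `g` from the finite
sets of subsets of `w` to `U` which sends unbounded sets to unbounded sets. -/
def IsTukeyTop (w U : X) : Prop := ∃ d g, IsFinFamilies E w d ∧ IsMap E g d U ∧
  ∀ a, Sub E a d → (∃ y, E y U ∧ ∀ s t, E s a → App E g s t → Sub E y t) →
    ∃ b, E b d ∧ ∀ s, E s a → Sub E s b

/-- The map `f` is monotone. -/
def IsMono (f : X) : Prop := ∀ x x' y y', App E f x x' → App E f y y' → Sub E x y → Sub E x' y'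

/-- `f` is a monotone cofinal map from `U` to `V`: it maps every base of `U` to a base of `V`. -/
def IsMonCofinal (f U V : X) : Prop := IsMap E f U V ∧ IsMono E f ∧
  ∀ B, IsCofinal E B U → ∀ z, E z V → ∃ y y', E y B ∧ App E f y y' ∧ Sub E y' z

/-- `f` is finitely generated on the set `C`: there is a monotone map `F` from the finite subsets
of `w = ω` to themselves with `f(x) = ⋃ k, F(x ∩ k)` for all `x ∈ C`. -/
def IsFinGenOn (w f C : X) : Prop := ∃ d F, IsFinSubsets E w d ∧ IsMap E F d d ∧ IsMono E F ∧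
  ∀ x y, E x C → App E f x y → ∀ m, E m y ↔
    ∃ k s t, E k w ∧ (∀ i, E i s ↔ E i x ∧ E i k) ∧ App E F s t ∧ E m t

/-- The negated form of the question in the structure `(X, E)`: there are ultrafilters `U` and `V`
on `ω`, `U` is not of maximum Tukey type, and a monotone cofinal map `f` from `U` to `V` which is
finitely generated on no cofinal subset of `U`; moreover no map which is finitely generated on a
cofinal subset `C` of `U` maps `C` to a base of `V`. -/
def NotQ1 : Prop := ∃ w U V f, IsOmega E w ∧ IsUltra E w U ∧ IsUltra E w V ∧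
  ¬ IsTukeyTop E w U ∧ IsMonCofinal E f U V ∧
  (∀ C, IsCofinal E C U → ¬ IsFinGenOn E w f C) ∧
  ∀ C h, IsCofinal E C U → IsMap E h C V → IsFinGenOn E w h C →
    ¬ ∀ z, E z V → ∃ y y', E y C ∧ App E h y y' ∧ Sub E y' z

end notions

end TKF
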