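import Pool.Agent.BVM_h40.ZFC

/-!
# First-order properties (MP_8dd142_lc, unconditional part)

`FO Q`: the property `Q` of assignments in structures `(X, E)` is given by a formula. The closure
lemmas are applied with `apply`; see `fo` examples in `Notions`.
-/

universe u

namespace TKF

open IM

/-- A property of assignments in structures is first-order. -/
def FO (Q : ∀ X : Type (u + 1), (X → X → Prop) → (ℕ → X) → Prop) : Prop :=
  ∃ φ : Fml, ∀ (X : Type (u + 1)) (E : X → X → Prop) (v : ℕ → X), φ.Sat E v ↔ Q X E v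

namespace FO

theorem mem (i j : ℕ) : FO.{u} (fun _ E v => E (v i) (v j)) := ⟨.mem i j, fun _ _ _ => Iff.rfl⟩

theorem eq (i j : ℕ) : FO.{u} (fun _ _ v => v i = v j) := ⟨.eq i j, fun _ _ _ => Iff.rfl⟩

variable {Q R : ∀ X : Type (u + 1), (X → X → Prop) → (ℕ → X) → Prop}

theorem not (h : FO Q) : FO (fun X E v => ¬ Q X E v) := by
  obtain ⟨φ, hφ⟩ := h
  exact ⟨.neg φ, fun X E v => not_congr (hφ X E v)⟩

theorem and (h : FO Q) (h' : FO R) : FO (fun X E v => Q X E v ∧ R X E v) := by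
  obtain ⟨φ, hφ⟩ := h
  obtain ⟨ψ, hψ⟩ := h'
  exact ⟨.and φ ψ, fun X E v => and_congr (hφ X E v) (hψ X E v)⟩

theorem congr (h : FO Q) (h' : ∀ X E v, Q X E v ↔ R X E v) : FO R := by
  obtain ⟨φ, hφ⟩ := h
  exact ⟨φ, fun X E v => (hφ X E v).trans (h' X E v)⟩

theorem or (h : FO Q) (h' : FO R) : FO (fun X E v => Q X E v ∨ R X E v) :=
  ((h.not.and h'.not).not).congr fun X E v => by tauto

theorem imp (h : FO Q) (h' : FO R) : FO (fun X E v => Q X E v → R X E v) :=
  ((h.and h'.not).not).congr fun X E v => by tauto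

theorem iff (h : FO Q) (h' : FO R) : FO (fun X E v => Q X E v ↔ R X E v) :=
  ((h.imp h').and (h'.imp h)).congr fun X E v => by tauto

theorem all {Q : ∀ X : Type (u + 1), (X → X → Prop) → (ℕ → X) → X → Prop}
    (h : FO (fun X E v => Q X E (fun n => v (n + 1)) (v 0))) :
    FO (fun X E v => ∀ z, Q X E v z) := by
  obtain ⟨φ, hφ⟩ := h
  exact ⟨.all φ, fun X E v => forall_congr' fun x => hφ X E (cons x v)⟩

theorem ex {Q : ∀ X : Type (u + 1), (X → X → Prop) → (ℕ → X) → X → Prop}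
    (h : FO (fun X E v => Q X E (fun n => v (n + 1)) (v 0))) :
    FO (fun X E v => ∃ z, Q X E v z) :=
  (FO.all (Q := fun X E v z => ¬ Q X E v z) h.not).not.congr fun X E v => by
    push Not
    exact Iff.rfl

theorem true : FO.{u} (fun _ _ _ => True) :=
  ((FO.eq 0 0).congr fun X E v => ⟨fun _ => trivial, fun _ => rfl⟩)

/-- Renaming of variables. -/
theorem re (h : FO Q) (σ : ℕ → ℕ) : FO (fun X E v => Q X E (fun n => v (σ n))) := by
  obtain ⟨φ, hφ⟩ := h
  -- renaming of formulas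
  have key : ∀ (φ : Fml) (σ : ℕ → ℕ), ∃ ψ : Fml, ∀ (X : Type (u + 1)) (E : X → X → Prop)
      (v : ℕ → X), ψ.Sat E v ↔ φ.Sat E (fun n => v (σ n)) := by
    intro φ
    induction φ with
    | mem i k => exact fun σ => ⟨.mem (σ i) (σ k), fun _ _ _ => Iff.rfl⟩
    | eq i k => exact fun σ => ⟨.eq (σ i) (σ k), fun _ _ _ => Iff.rfl⟩
    | neg φ ih =>
      intro σ
      obtain ⟨ψ, hψ⟩ := ih σ
      exact ⟨.neg ψ, fun X E v => not_congr (hψ X E v)⟩
    | and φ φ' ih ih' =>
      intro σ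
      obtain ⟨ψ, hψ⟩ := ih σ
      obtain ⟨ψ', hψ'⟩ := ih' σ
      exact ⟨.and ψ ψ', fun X E v => and_congr (hψ X E v) (hψ' X E v)⟩
    | all φ ih =>
      intro σ
      obtain ⟨ψ, hψ⟩ := ih (fun n => Nat.rec 0 (fun k _ => σ k + 1) n)
      refine ⟨.all ψ, fun X E v => forall_congr' fun x => ?_⟩
      rw [hψ X E (cons x v)]
      have : (fun n => cons x v (Nat.rec 0 (fun k _ => σ k + 1) n)) = cons x (fun n => v (σ n)) := by
        funext n
        cases n <;> rfl
      rw [this]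
  obtain ⟨ψ, hψ⟩ := key φ σ
  exact ⟨ψ, fun X E v => (hψ X E v).trans (hφ X E _)⟩

end FO

end TKF
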