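import Pool.Agent.W_8dd142_h88.Names

/-!
# Finite sets in the quotient (MP_8dd142_lc)
-/

universe u

namespace TKF

open IM IM.BSet BVM

variable {D : Type u} [CompleteBooleanAlgebra D] {lam : D → Prop} {hl : IsUF lam}

/-- Separation for first-order properties. -/
theorem exists_sep {Q : ∀ X : Type (u + 1), (X → X → Prop) → (ℕ → X) → Prop} (hQ : FO Q)
    (v : ℕ → X hl) (a : X hl) : ∃ b, ∀ x, E hl x b ↔ E hl x a ∧ Q (X hl) (E hl) (cons x v) := by
  obtain ⟨b, hb⟩ := ax_separation hQ.choose v a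
  refine ⟨b, fun x => ?_⟩
  rw [hb, hQ.choose_spec]

theorem exists_insert (a x : X hl) : ∃ b, ∀ z, E hl z b ↔ E hl z a ∨ z = x := by
  obtain ⟨s, hs⟩ := ax_pairing x x
  obtain ⟨p, hp⟩ := ax_pairing a s
  obtain ⟨b, hb⟩ := ax_union p
  refine ⟨b, fun z => ?_⟩
  rw [hb]
  constructor
  · rintro ⟨y, hy, hz⟩
    rcases (hp y).1 hy with rfl | rfl
    · exact Or.inl hz
    · exact Or.inr (((hs z).1 hz).elim id id)
  · rintro (h | h)
    · exact ⟨a, (hp a).2 (Or.inl rfl), h⟩
    · exact ⟨s, (hp s).2 (Or.inr rfl), (hs z).2 (Or.inl h)⟩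

variable {ι : Type} {c : ι → BSet D}

/-- Standard finite sets are finite. -/
theorem isFin_nchk (A : Finset ι) : IsFin (E hl) (val hl (nchk c (A : Set ι))) := by
  classical
  intro C hne hsub
  let T : X hl → Finset ι := fun t => A.filter fun i => E hl (val hl (c i)) t
  have hT : ∀ t, E hl t C → ∀ z, E hl z t ↔ ∃ i ∈ T t, z = val hl (c i) := by
    intro t ht z
    constructor
    · intro hz
      obtain ⟨i, hi, rfl⟩ := E_nchk_finset.1 (hsub t ht z hz)
      exact ⟨i, Finset.mem_filter.2 ⟨hi, hz⟩, rfl⟩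
    · rintro ⟨i, hi, rfl⟩
      exact (Finset.mem_filter.1 hi).2
  have hex : ∃ n, ∃ t, E hl t C ∧ A.card - (T t).card = n := by
    obtain ⟨t, ht⟩ := hne
    exact ⟨_, t, ht, rfl⟩
  obtain ⟨t, ht, htn⟩ := Nat.find_spec hex
  refine ⟨t, ht, fun t' ht' htt' => ?_⟩
  have h1 : Nat.find hex ≤ A.card - (T t').card := Nat.find_min' hex ⟨t', ht', rfl⟩
  have h2 : T t ⊆ T t' := by
    intro i hi
    obtain ⟨hi1, hi2⟩ := Finset.mem_filter.1 hi
    exact Finset.mem_filter.2 ⟨hi1, htt' _ hi2⟩
  have h3 : (T t').card ≤ A.card := Finset.card_le_card (Finset.filter_subset _ _)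
  have h4 : (T t).card ≤ (T t').card := Finset.card_le_card h2
  have h5 : T t = T t' := Finset.eq_of_subset_of_card_le h2 (by omega)
  refine ext_E fun z => ?_
  rw [hT t' ht' z, hT t ht z, h5]

/-- The name of the set of all finite subsets of `nall c`. -/
noncomputable def nfin (c : ι → BSet D) : BSet D :=
  nall fun S : Finset ι => nchk c (S : Set ι)

theorem E_nfin {z : BSet D} :
    E hl (val hl z) (val hl (nfin c)) ↔ lam (⨆ S : Finset ι, beq z (nchk c (S : Set ι))) := E_nall

theorem E_nfin_c (S : Finset ι) : E hl (val hl (nchk c (S : Set ι))) (val hl (nfin c)) :=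
  E_nall_c (c := fun S : Finset ι => nchk c (S : Set ι)) S

theorem isFin_of_nfin {t : X hl} (h : E hl t (val hl (nfin c))) :
    IsFin (E hl) t ∧ Sub (E hl) t (val hl (nall c)) := by
  obtain ⟨t, rfl⟩ := exists_name t
  rw [E_nfin] at h
  refine mix' (Q := fun X E v => IsFin E (v 0) ∧ Sub E (v 0) (v 1)) (v := ps [nall c])
    ((IsFin.fo 0).and (Sub.fo 0 1)) ?_ hl h
  intro S lam hl
  exact ⟨isFin_nchk S, nchk_sub_nall⟩

/-- Finite subsets of `nall c` are elements of `nfin c`. -/
theorem mem_nfin {t : X hl} (hfin : IsFin (E hl) t) (ht : Sub (E hl) t (val hl (nall c))) :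
    E hl t (val hl (nfin c)) := by
  classical
  obtain ⟨C, hC⟩ := exists_sep (hl := hl) (Q := fun X E v => Sub E (v 0) (v 1)) (Sub.fo 0 1)
    (fun _ => t) (val hl (nfin c))
  obtain ⟨s, hs, hmax⟩ := hfin C ⟨val hl (nchk c ((∅ : Finset ι) : Set ι)), (hC _).2
      ⟨E_nfin_c ∅, fun z hz => by
        obtain ⟨i, hi, _⟩ := E_nchk_finset.1 hz
        exact absurd hi (Finset.notMem_empty i)⟩⟩
    (fun t' ht' => ((hC t').1 ht').2)
  obtain ⟨hsF, hst⟩ := (hC s).1 hs
  have hst : Sub (E hl) s t := hst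
  by_cases heq : Sub (E hl) t s
  · rw [Sub.antisymm heq hst]
    exact hsF
  exfalso
  have hx : ∃ x, E hl x t ∧ ¬ E hl x s := by
    unfold Sub at heq
    push Not at heq
    exact heq
  obtain ⟨x, hxt, hxs⟩ := hx
  obtain ⟨s', hs'⟩ := exists_insert s x
  have hs'F : E hl s' (val hl (nfin c)) := by
    -- the mixture argument
    obtain ⟨s₀, rfl⟩ := exists_name s
    obtain ⟨x₀, rfl⟩ := exists_name x
    have h1 := hsF
    rw [E_nfin] at h1
    have h2 := mix' (Q := fun X E v => ∀ x, E x (v 1) → ∀ s', (∀ z, E z s' ↔ E z (v 0) ∨ z = x) →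
        E s' (v 2)) (v := ps [nall c, nfin c])
      (by repeat' (with_reducible first | apply FO.mem | apply FO.eq | apply FO.or | apply FO.iff | apply FO.imp | apply FO.all)) (by
        intro S lam hl x hx s' hs'
        obtain ⟨x, rfl⟩ := exists_name x
        have hx' : E hl (val hl x) (val hl (nall c)) := hx
        rw [E_nall] at hx'
        refine mix' (Q := fun X E v => ∀ s', (∀ z, E z s' ↔ E z (v 1) ∨ z = v 0) →
            E s' (v 2)) (v := ps [nchk c (S : Set ι), nfin c])
          (by repeat' (with_reducible first | apply FO.mem | apply FO.eq | apply FO.or | apply FO.iff | apply FO.imp | apply FO.all)) ?_ hl hx' s' hs'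
        intro i lam hl s' hs'
        have h3 : s' = val hl (nchk c ((insert i S : Finset ι) : Set ι)) := by
          refine ext_E fun z => ?_
          rw [hs' z, E_nchk_finset]
          have h4 : (E hl z (val hl (ps [nchk c (S : Set ι), nfin c] 0)) ↔
              ∃ i ∈ S, z = val hl (c i)) := E_nchk_finset
          change (E hl z (val hl (ps [nchk c (S : Set ι), nfin c] 0)) ∨ z = val hl (c i)) ↔ _
          rw [h4]
          constructor
          · rintro (⟨k, hk, h⟩ | h)
            · exact ⟨k, Finset.mem_insert_of_mem hk, h⟩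
            · exact ⟨i, Finset.mem_insert_self _ _, h⟩
          · rintro ⟨k, hk, h⟩
            rcases Finset.mem_insert.1 hk with rfl | hk
            · exact Or.inr h
            · exact Or.inl ⟨k, hk, h⟩
        rw [h3]
        exact E_nfin_c _) hl h1
    exact h2 (val hl x₀) (ht _ hxt) s' hs'
  have hs't : Sub (E hl) s' t := by
    intro z hz
    rcases (hs' z).1 hz with h | h
    · exact hst z h
    · rw [h]
      exact hxt
  have h5 := hmax s' ((hC s').2 ⟨hs'F, hs't⟩) fun z hz => (hs' z).2 (Or.inl hz)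
  apply hxs
  rw [← h5]
  exact (hs' x).2 (Or.inr rfl)

theorem mem_nfin_iff {t : X hl} : E hl t (val hl (nfin c)) ↔
    IsFin (E hl) t ∧ Sub (E hl) t (val hl (nall c)) :=
  ⟨isFin_of_nfin, fun h => mem_nfin h.1 h.2⟩

theorem isFinSubsets_nfin :
    IsFinSubsets (E hl) (val hl (omB D)) (val hl (nfin (natB : ℕ → BSet D))) :=
  fun _ => mem_nfin_iff

end TKF
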