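import Pool.Agent.W_8dd142_h88.UV

/-!
# The generic map is not finitely generated (MP_8dd142_lc)
-/

namespace TKF

open IM IM.BSet BVM
open Pool.MP_8dd142_lc.W Node

/-- `y` is the value at `x` of the map generated by `F`. -/
def GVal {X : Type*} (E : X → X → Prop) (w F x y : X) : Prop :=
  ∀ m, E m y ↔ ∃ k s t, E k w ∧ (∀ i, E i s ↔ E i x ∧ E i k) ∧ App E F s t ∧ E m t

theorem GVal.fo (i j k l : ℕ) : FO.{1} (fun _ E v => GVal E (v i) (v j) (v k) (v l)) := by
  unfold GVal
  repeat' (with_reducible first | apply App.fo | apply FO.mem | apply FO.and | apply FO.iff | apply FO.all | apply FO.ex)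

/-- The map generated by `F` maps the cofinal set `C` to a base of `V`. -/
def BadGen {X : Type*} (E : X → X → Prop) (w U V C d F : X) : Prop :=
  IsCofinal E C U ∧ IsFinSubsets E w d ∧ IsMap E F d d ∧ IsMono E F ∧
  (∀ x, E x C → ∃ y, E y V ∧ GVal E w F x y) ∧
  ∀ z, E z V → ∃ x y, E x C ∧ GVal E w F x y ∧ Sub E y z

theorem BadGen.fo (i j k l m n : ℕ) :
    FO.{1} (fun _ E v => BadGen E (v i) (v j) (v k) (v l) (v m) (v n)) := by
  unfold BadGen
  repeat' (with_reducible first | apply IsCofinal.fo | apply IsFinSubsets.fo | apply IsMap.fo | apply IsMono.fo | apply GVal.fo | apply Sub.fo | apply FO.mem | apply FO.and | apply FO.imp | apply FO.all | apply FO.ex)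

/-- A true statement is forced by some condition. -/
theorem Fc.exists {P : Type*} [Preorder P]
    {Q : ∀ X : Type _, (X → X → Prop) → (ℕ → X) → Prop} {v : ℕ → BSet (RO P)} (hQ : FO Q)
    {lam : RO P → Prop} (hl : IsUF lam)
    (h : Q (X hl) (E hl) (fun n => val hl (v n))) : ∃ q : P, Fc q Q v := by
  obtain ⟨q, hq⟩ := exists_gen (a := tvq hQ v) (by
    intro h0
    apply hl.bot
    rw [← h0]
    exact (tvq_iff hQ v hl).2 h)
  exact ⟨q, (fc_iff hQ).2 (gen_le_iff.1 hq)⟩

/-- The map on sets generated by a map on finite sets. -/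
def genOf (fh : Finset ℕ → Finset ℕ) (Z : Set ℕ) : Set ℕ :=
  {m | ∃ s : Finset ℕ, (s : Set ℕ) ⊆ Z ∧ m ∈ fh s}

theorem genOf_mono (fh : Finset ℕ → Finset ℕ) (Z Z' : Set ℕ) (h : Z ⊆ Z') :
    genOf fh Z ⊆ genOf fh Z' := by
  rintro m ⟨s, hs, hm⟩
  exact ⟨s, hs.trans h, hm⟩

/-- The name of a finite set of naturals. -/
noncomputable def nfs {D : Type*} [CompleteBooleanAlgebra D] (s : Finset ℕ) : BSet D :=
  nchk natB (s : Set ℕ)

section

variable {D : Type*} [CompleteBooleanAlgebra D] {lam : D → Prop} {hl : IsUF lam}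

open Classical in
/-- The intersection of a real with a natural number. -/
theorem inter_natB {Z : Set ℕ} {k : ℕ} {s : X hl}
    (h : ∀ i, E hl i s ↔ E hl i (val hl (rl Z)) ∧ E hl i (val hl (natB k))) :
    s = val hl (nfs ((Finset.range k).filter (· ∈ Z))) := by
  refine ext_E fun i => ?_
  rw [h i, nfs, E_nchk_finset]
  constructor
  · rintro ⟨h1, h2⟩
    obtain ⟨j, hj, rfl⟩ := E_natB.1 h2
    exact ⟨j, Finset.mem_filter.2 ⟨Finset.mem_range.2 hj, (E_nchk_c disj_natB).1 h1⟩, rfl⟩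
  · rintro ⟨j, hj, rfl⟩
    obtain ⟨h1, h2⟩ := Finset.mem_filter.1 hj
    exact ⟨(E_nchk_c disj_natB).2 h2, E_natB.2 ⟨j, Finset.mem_range.1 h1, rfl⟩⟩

open Classical in
theorem inter_natB' (Z : Set ℕ) (k : ℕ) (i : X hl) :
    E hl i (val hl (nfs ((Finset.range k).filter (· ∈ Z)))) ↔
      E hl i (val hl (rl Z)) ∧ E hl i (val hl (natB k)) := by
  rw [nfs, E_nchk_finset]
  constructor
  · rintro ⟨j, hj, rfl⟩
    obtain ⟨h1, h2⟩ := Finset.mem_filter.1 hj
    exact ⟨(E_nchk_c disj_natB).2 h2, E_natB.2 ⟨j, Finset.mem_range.1 h1, rfl⟩⟩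
  · rintro ⟨h1, h2⟩
    obtain ⟨j, hj, rfl⟩ := E_natB.1 h2
    exact ⟨j, Finset.mem_filter.2 ⟨Finset.mem_range.2 hj, (E_nchk_c disj_natB).1 h1⟩, rfl⟩

end

/-- The value at a standard real of the map generated by a decided `F`. -/
theorem gval_eq {P : Type 1} [Preorder P] {q : P} {d F : BSet (RO P)}
    {fh : Finset ℕ → Finset ℕ} (hmono : ∀ s t : Finset ℕ, s ⊆ t → fh s ⊆ fh t)
    (hd : Fc q (fun _ E v => IsFinSubsets E (v 0) (v 1)) (ps [omB _, d]))
    (hF : Fc q (fun _ E v => IsMap E (v 0) (v 1) (v 1)) (ps [F, d]))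
    (hfh : ∀ s, Fc q (fun _ E v => App E (v 0) (v 1) (v 2)) (ps [F, nfs s, nfs (fh s)]))
    {lam : RO P → Prop} (hl : IsUF lam) (hq : lam (gen q)) {Z : Set ℕ} {y : X hl}
    (hy : GVal (E hl) (val hl (omB _)) (val hl F) (val hl (rl Z)) y) :
    y = val hl (rl (genOf fh Z)) := by
  classical
  have hyw : Sub (E hl) y (val hl (omB _)) := by
    intro m hm
    obtain ⟨k, s, t, _, _, hst, hmt⟩ := (hy m).1 hm
    have h1 : IsMap (E hl) (val hl F) (val hl d) (val hl d) := hF lam hl hq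
    have h2 : IsFinSubsets (E hl) (val hl (omB _)) (val hl d) := hd lam hl hq
    exact ((h2 t).1 (h1.mem hst).2).2 m hmt
  obtain ⟨y, rfl⟩ := exists_name y
  have key : ∀ z, E hl z (val hl (omB _)) →
      (E hl z (val hl y) ↔ E hl z (val hl (rl (genOf fh Z)))) := by
    intro z hz
    obtain ⟨z, rfl⟩ := exists_name z
    rw [omB, E_nall] at hz
    refine mix (Q := fun _ E v => GVal E (v 1) (v 2) (v 3) (v 4) → (E (v 0) (v 4) ↔ E (v 0) (v 5)))
      (v := ps [omB _, F, rl Z, y, rl (genOf fh Z)])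
      ((GVal.fo 1 2 3 4).imp ((FO.mem 0 4).iff (FO.mem 0 5))) (gen q) ?_ hl hq hz hy
    intro m lam hl hq hy
    have hy : GVal (E hl) (val hl (omB _)) (val hl F) (val hl (rl Z)) (val hl y) := hy
    have h1 : IsMap (E hl) (val hl F) (val hl d) (val hl d) := hF lam hl hq
    change E hl (val hl (natB m)) (val hl y) ↔ E hl (val hl (natB m)) (val hl (rl (genOf fh Z)))
    rw [hy, rl, E_nchk_c disj_natB]
    constructor
    · rintro ⟨k, s, t, hk, hs, hst, hmt⟩
      by_contra hm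
      obtain ⟨k, rfl⟩ := exists_name k
      rw [omB, E_nall] at hk
      refine mix (Q := fun _ E v => ∀ s t, (∀ i, E i s ↔ E i (v 1) ∧ E i (v 0)) →
          App E (v 2) s t → ¬ E (v 3) t) (v := ps [rl Z, F, natB m])
        (by repeat' (with_reducible first | apply App.fo | apply FO.mem | apply FO.and | apply FO.iff | apply FO.not | apply FO.imp | apply FO.all))
        (gen q) ?_ hl hq hk s t hs hst hmt
      clear hmt hst hs hk k s t h1 hy
      intro k lam hl hq s t hs hst hmt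
      have h1 : IsMap (E hl) (val hl F) (val hl d) (val hl d) := hF lam hl hq
      rw [inter_natB hs] at hst
      have h2 := h1.uniq hst (hfh _ lam hl hq)
      rw [h2] at hmt
      refine hm ⟨(Finset.range k).filter (· ∈ Z), ?_, (E_nchk_c disj_natB).1 hmt⟩
      intro j hj
      exact (Finset.mem_filter.1 hj).2
    · rintro ⟨s, hs, hm⟩
      let k := s.sup id + 1
      have hsub : s ⊆ (Finset.range k).filter (· ∈ Z) := by
        intro j hj
        refine Finset.mem_filter.2 ⟨Finset.mem_range.2 (Nat.lt_succ_of_le ?_), hs hj⟩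
        exact Finset.le_sup (f := id) hj
      refine ⟨val hl (natB k), val hl (nfs ((Finset.range k).filter (· ∈ Z))),
        val hl (nfs (fh ((Finset.range k).filter (· ∈ Z)))), E_nall_c k, inter_natB' Z k,
        hfh _ lam hl hq, ?_⟩
      exact (E_nchk_c disj_natB).2 (hmono _ _ hsub hm)
  refine ext_E fun z => ⟨fun hz => ?_, fun hz => ?_⟩
  · exact (key z (hyw z hz)).1 hz
  · exact (key z (rl_sub _ z hz)).2 hz

/-- No finitely generated map maps a cofinal subset of `U` to a base of `V`. -/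
theorem not_badGen {lam : RO Cond → Prop} (hl : IsUF lam) (C d F : X hl) :
    ¬ BadGen (E hl) (val hl (omB _)) (val hl nU) (val hl nV) C d F := by
  classical
  intro hbad
  obtain ⟨C, rfl⟩ := exists_name C
  obtain ⟨d, rfl⟩ := exists_name d
  obtain ⟨F, rfl⟩ := exists_name F
  obtain ⟨q₀, hq₀⟩ := Fc.exists (Q := fun _ E v => BadGen E (v 0) (v 1) (v 2) (v 3) (v 4) (v 5))
    (v := ps [omB _, nU, nV, C, d, F]) (BadGen.fo 0 1 2 3 4 5) hl hbad
  clear hbad hl lam
  have hB : ∀ (lam : RO Cond → Prop) (hl : IsUF lam), lam (gen q₀) →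
      BadGen (E hl) (val hl (omB _)) (val hl nU) (val hl nV) (val hl C) (val hl d) (val hl F) :=
    hq₀
  -- decide the map on finite sets
  have hdeq : ∀ (lam : RO Cond → Prop) (hl : IsUF lam), lam (gen q₀) →
      val hl d = val hl (nfin natB) := fun lam hl h =>
    isFinSubsets_uniq (hB lam hl h).2.1 isFinSubsets_nfin
  obtain ⟨q₁, hq₁, fh, hfh⟩ := decide_map (p := q₀) cond_sigma (ι := Finset ℕ) (κ := Finset ℕ)
    (c := fun s => nfs s) (c' := fun s => nfs s) (f := F) (d := d) (e := d)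
    (fun lam hl h => (hB lam hl h).2.2.1)
    (fun s lam hl h => by
      change E hl (val hl (nfs s)) (val hl d)
      rw [hdeq lam hl h]
      exact E_nfin_c s)
    (fun lam hl h => by
      change Sub (E hl) (val hl d) (val hl (nall _))
      rw [hdeq lam hl h]
      exact fun z hz => hz)
  have hmono : ∀ s t : Finset ℕ, s ⊆ t → fh s ⊆ fh t := by
    intro s t hst
    obtain ⟨lam, hl, h⟩ := exists_uf q₁
    have h1 := (hB lam hl (hl.mono (gen_mono hq₁) h)).2.2.2.1 _ _ _ _ (hfh s lam hl h)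
      (hfh t lam hl h) ((nchk_sub_iff disj_natB).2 (Finset.coe_subset.2 hst))
    exact Finset.coe_subset.1 ((nchk_sub_iff disj_natB).1 h1)
  have hval : ∀ (lam : RO Cond → Prop) (hl : IsUF lam), lam (gen q₁) → ∀ (Z : Set ℕ) (y : X hl),
      GVal (E hl) (val hl (omB _)) (val hl F) (val hl (rl Z)) y →
      y = val hl (rl (genOf fh Z)) := by
    intro lam hl h Z y hy
    refine gval_eq hmono (d := d) ?_ ?_ hfh hl h hy
    · exact fun lam hl h => (hB lam hl (hl.mono (gen_mono hq₁) h)).2.1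
    · exact fun lam hl h => (hB lam hl (hl.mono (gen_mono hq₁) h)).2.2.1
  -- kill it
  obtain ⟨S', hS1, hS2, X₀, hX, hrX, hkill⟩ := step_kill' q₁.1 q₁.2 (genOf fh) (genOf_mono fh)
  let r : Cond := ⟨S', hS2⟩
  have hr : r ≤ q₁ := hS1
  have hXr : InU X₀ r := ⟨hX, hrX⟩
  obtain ⟨lam, hl, hlam⟩ := exists_uf r
  have hlam1 : lam (gen q₁) := hl.mono (gen_mono hr) hlam
  have hBad := hB lam hl (hl.mono (gen_mono hq₁) hlam1)
  have hfX : ∀ (lam : RO Cond → Prop) (hl : IsUF lam), lam (gen r) →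
      E hl (val hl (rl (r.1.f X₀))) (val hl nV) := fun lam hl h =>
    (F_mem hl ((F_val hl hXr h).2 rfl)).2
  rcases hkill with hk | hk
  · have hXU : E hl (val hl (rl X₀)) (val hl nU) := (E_U hl).2 (hl.mono (gen_le_tvp hXr) hlam)
    obtain ⟨Y, hYC, hYX⟩ := hBad.1.2 _ hXU
    obtain ⟨y, hyV, hy⟩ := hBad.2.2.2.2.1 Y hYC
    refine real_all cond_sigma (Q := fun _ E v => Sub E (v 0) (v 3) → ∀ y,
        GVal E (v 1) (v 2) (v 0) y → ¬ E y (v 4)) (v := ps [omB _, F, rl X₀, nV])
      (by repeat' (with_reducible first | apply Sub.fo | apply GVal.fo | apply FO.mem | apply FO.not | apply FO.imp | apply FO.all))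
      (gen r) ?_ hl hlam (U_real hl (hBad.1.1 Y hYC)) hYX y hy hyV
    clear hlam hlam1 hBad hXU hYC hYX hyV hy y Y hl lam
    intro Z lam hl hlam hZX y hy hyV
    have hZX' : Z ⊆ X₀ := (nchk_sub_iff disj_natB).1 hZX
    rw [hval lam hl (hl.mono (gen_mono hr) hlam) Z y hy] at hyV
    have h1 := (isUltra_V hl).2.2.2.2.1 _ _ (val hl (rl (genOf fh Z ∩ r.1.f X₀))) hyV
      (hfX lam hl hlam) (fun n => E_nchk_inter disj_natB)
    have h2 : genOf fh Z ∩ r.1.f X₀ = ∅ := by
      ext y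
      constructor
      · rintro ⟨h3, h4⟩
        exact (hk Z hZX' y h4 h3).elim
      · exact fun h => h.elim
    rw [h2] at h1
    refine (isUltra_V hl).2.2.1 _ ?_ h1
    intro z hz
    rw [rl, ← Finset.coe_empty, E_nchk_finset] at hz
    obtain ⟨i, hi, _⟩ := hz
    exact absurd hi (Finset.notMem_empty i)
  · obtain ⟨x, y, hxC, hxy, hysub⟩ := hBad.2.2.2.2.2 _ (hfX lam hl hlam)
    refine real_all cond_sigma (Q := fun _ E v => E (v 0) (v 3) → ∀ y,
        GVal E (v 1) (v 2) (v 0) y → ¬ Sub E y (v 4)) (v := ps [omB _, F, nU, rl (r.1.f X₀)])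
      (by repeat' (with_reducible first | apply Sub.fo | apply GVal.fo | apply FO.mem | apply FO.not | apply FO.imp | apply FO.all))
      (gen r) ?_ hl hlam (U_real hl (hBad.1.1 x hxC)) (hBad.1.1 x hxC) y hxy hysub
    clear hlam hlam1 hBad hxC hxy hysub y x hl lam
    intro Z lam hl hlam hZU y hy hysub
    have hZU' : lam (uU Z) := (E_U hl).1 hZU
    obtain ⟨r', hr', hZr'⟩ := exists_of_tvp (fun _ _ h hq => InU.mono h hq) hl hlam hZU'
    have h1 := hval lam hl (hl.mono (gen_mono hr) hlam) Z y hy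
    rw [h1] at hysub
    have h2 : genOf fh Z ⊆ r.1.f X₀ := (nchk_sub_iff disj_natB).1 hysub
    refine hk r'.1 hr' Z hZr'.1 hZr'.2 ?_
    rw [hXr.f_eq hr']
    exact h2

end TKF
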