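import Pool.Agent.W_8dd142_h88.Cond

/-!
# The killing step with a fixed witness (MP_8dd142_lc)

This is `Sys.step_kill` of `Pool.Agent.W_MP_8dd142_lc.Kill` with the same proof; the statement says
in addition that the set `X` does not depend on the extension.
-/

set_option autoImplicit false

namespace TKF

open Pool.MP_8dd142_lc.W Node Set Pool.MP_8dd142_lc.W.Sys

/-- Step S3 with a fixed set `X`. -/
theorem step_kill' (S : Sys) (hS : S.Ctb) (F : Set ℕ → Set ℕ) (hF : ∀ X Y : Set ℕ, X ⊆ Y → F X ⊆ F Y) :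
    ∃ S' : Sys, S.Ext S' ∧ S'.Ctb ∧ ∃ X ∈ S'.B, root ∈ S'.φ X ∧
      ((∀ Z, Z ⊆ X → ∀ y ∈ S'.f X, y ∉ F Z) ∨
      ∀ S'' : Sys, S'.Ext S'' → ∀ Z ∈ S''.B, root ∈ S''.φ Z → ¬ F Z ⊆ S''.f X) := by
  classical
  by_cases hcase : ∃ Z, root ∈ S.ker (S.E Z \ F Z)
  · -- Case 1
    obtain ⟨Z, hZ⟩ := hcase
    obtain ⟨S', h1, h2, X, hX, hXZ, hr, hsub⟩ := S.fusion_in hS (S.ker_pf _) hZ (Z := Z) (by
      intro b hb y hy hyb
      exact (S.ker_pt hy).1 b hb hyb)
    refine ⟨S', h1, h2, X, hX, hr, Or.inl ?_⟩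
    intro Z' hZX y hy1 hy
    have hy2 := S.ker_pt (hsub hy1)
    apply hy2.2
    exact hF Z' Z (hZX.trans hXZ) hy
  · -- Case 2
    push Not at hcase
    obtain ⟨d, hd⟩ := S.exists_new_level hS
    obtain ⟨S', Z, X, h1, h2, hX, hr, hZne, hZX, hZN, hNZ, hπ⟩ := S.new_level hS d hd
    refine ⟨S', h1, h2, X, hX, hr, Or.inr ?_⟩
    intro S'' he Z' hZ' hrZ' hsubX
    apply hcase Z'
    have he' := h1.trans he
    have hdT' : olev d ∈ S'.T := by
      obtain ⟨z, hz⟩ := hZne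
      exact ⟨olev_ne_bot d, mid d z, hZN z hz, rfl⟩
    have hdT : olev d ∈ S''.T := he.T_sub hdT'
    let G : Set Node := {ν | ν ∈ S.N ∧ lev ν ≠ ⊤ ∧ ν ∈ S''.φ Z'} ∪
      {ν | ∃ z ∈ Z, ν = pt z ∧ mid d z ∈ S''.φ Z'}
    -- transfer from the new level to the points
    have key : ∀ b ∈ S.B, ∀ ν, ν ∈ S''.φ (b ∩ Z') → lev ν ≤ olev d →
        {μ | μ ∈ G ∧ μ ∈ S.φ b ∧ lev μ = ⊤}.Infinite := by
      intro b hb ν hν hle
      have hb'' := he'.B hb
      have h3 := S''.clT (S''.inter_mem b hb'' Z' hZ') hν hdT hle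
      have h4 : {z : ℕ | mid d z ∈ S''.φ (b ∩ Z')}.Infinite := by
        intro hfin
        apply h3
        refine (hfin.image (fun z => mid d z)).subset ?_
        rintro μ ⟨h5, h6⟩
        obtain ⟨z, rfl⟩ := lev_eq_coe h6
        exact ⟨z, h5, rfl⟩
      have h5 : (pt '' {z : ℕ | mid d z ∈ S''.φ (b ∩ Z')}).Infinite := h4.image (by
        intro a _ a' _ haa
        injection haa)
      refine h5.mono ?_
      rintro μ ⟨z, hz, rfl⟩
      have hz' : mid d z ∈ S''.φ (b ∩ Z') := hz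
      rw [S''.mem_φ_inter hb'' hZ'] at hz'
      have hzN : mid d z ∈ S'.N := he.fr _ (S''.φ_sub hb'' hz'.1) hdT'
      have hzZ : z ∈ Z := hNZ z hzN
      refine ⟨Or.inr ⟨z, hzZ, rfl, hz'.2⟩, ?_, rfl⟩
      rw [← hπ b hb z hzZ, ← he.φ b (h1.B hb) _ hzN]
      exact hz'.1
    have hpf : S.PF G := by
      refine ⟨Set.union_subset (fun ν hν => hν.1) ?_, ?_⟩
      · rintro ν ⟨z, _, rfl, _⟩
        exact S.pt_mem z
      · rintro b hb ν (⟨hνN, hνp, hνZ⟩ | ⟨z, hz, rfl, hzZ'⟩) hνb l hl hle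
        · have hb'' := he'.B hb
          have hνb'' : ν ∈ S''.φ (b ∩ Z') := by
            rw [S''.mem_φ_inter hb'' hZ']
            exact ⟨(he'.φ b hb ν hνN).2 hνb, hνZ⟩
          by_cases htop : l = ⊤
          · subst htop
            apply key b hb ν hνb''
            rcases lev_cases (lev ν) with h | ⟨e, h⟩ | h
            · rw [h]; exact bot_le
            · obtain ⟨z, rfl⟩ := lev_eq_coe h
              exact olev_le.2 (hd _ _ hνN).le
            · exact absurd h hνp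
          · refine (S''.clT (S''.inter_mem b hb'' Z' hZ') hνb'' (he'.T_sub hl) hle).mono ?_
            rintro μ ⟨h3, h4⟩
            rw [S''.mem_φ_inter hb'' hZ'] at h3
            have hμN : μ ∈ S.N := he'.fr μ (S''.φ_sub hb'' h3.1) (by rw [h4]; exact hl)
            exact ⟨Or.inl ⟨hμN, by rw [h4]; exact htop, h3.2⟩,
              (he'.φ b hb μ hμN).1 h3.1, h4⟩
        · have hlt : l = ⊤ := top_le_iff.1 hle
          subst hlt
          have hb'' := he'.B hb
          apply key b hb (mid d z) ?_ le_rfl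
          rw [S''.mem_φ_inter hb'' hZ']
          refine ⟨?_, hzZ'⟩
          rw [he.φ b (h1.B hb) _ (hZN z hz), hπ b hb z hz]
          exact hνb
    refine S.sub_ker hpf ?_ (Or.inl ⟨S.root_mem, by simp [lev], hrZ'⟩)
    rintro y (⟨_, h, _⟩ | ⟨z, hz, hyz, hzZ'⟩)
    · exact absurd rfl h
    · injection hyz with hyz
      subst hyz
      refine ⟨?_, ?_⟩
      · intro b hb hyb
        have hb'' := he'.B hb
        apply S''.inf (b ∩ Z') (S''.inter_mem b hb'' Z' hZ') (mid d y)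
        rw [S''.mem_φ_inter hb'' hZ']
        refine ⟨?_, hzZ'⟩
        rw [he.φ b (h1.B hb) _ (hZN y hz), hπ b hb y hz]
        exact hyb
      · intro hy
        have hy1 : y ∈ S''.f X := hsubX hy
        rw [he.f_eq hX] at hy1
        exact hZX y hz hy1

end TKF
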