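import Pool.Agent.W_8dd142_h88.Fin

/-!
# Pairs and maps in the quotient; reals for countably closed forcing (MP_8dd142_lc)
-/

universe u

namespace TKF

open IM IM.BSet BVM

section pairs

variable {D : Type u} [CompleteBooleanAlgebra D] {lam : D → Prop} {hl : IsUF lam}

theorem isUPair_val {c x y : BSet D} :
    IsUPair (E hl) (val hl c) (val hl x) (val hl y) ↔ val hl c = val hl (upB x y) := by
  have h1 : IsUPair (E hl) (val hl (upB x y)) (val hl x) (val hl y) := by
    intro z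
    obtain ⟨z, rfl⟩ := exists_name z
    rw [E_val, bmem_upB, hl.sup_iff, val_eq, val_eq]
  constructor
  · intro h
    exact ext_E fun z => (h z).trans (h1 z).symm
  · intro h
    rw [h]
    exact h1

theorem isPair_val {p x y : BSet D} :
    IsPair (E hl) (val hl p) (val hl x) (val hl y) ↔ val hl p = val hl (prB x y) := by
  constructor
  · rintro ⟨s, d, hs, hd, hp⟩
    obtain ⟨s, rfl⟩ := exists_name s
    obtain ⟨d, rfl⟩ := exists_name d
    rw [isUPair_val] at hs hd
    rw [hs, hd, isUPair_val] at hp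
    exact hp
  · intro h
    refine ⟨val hl (upB x x), val hl (upB x y), isUPair_val.2 rfl, isUPair_val.2 rfl, ?_⟩
    rw [h]
    exact isUPair_val.2 rfl

theorem app_val {f x y : BSet D} :
    App (E hl) (val hl f) (val hl x) (val hl y) ↔ E hl (val hl (prB x y)) (val hl f) := by
  constructor
  · rintro ⟨p, hp, hpf⟩
    obtain ⟨p, rfl⟩ := exists_name p
    rw [isPair_val] at hp
    rwa [hp] at hpf
  · intro h
    exact ⟨val hl (prB x y), isPair_val.2 rfl, h⟩

theorem app_val' {f x y : BSet D} :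
    App (E hl) (val hl f) (val hl x) (val hl y) ↔ lam (bmem (prB x y) f) := by
  rw [app_val, E_val]

theorem prB_inj {x y x' y' : BSet D} (h : val hl (prB x y) = val hl (prB x' y')) :
    val hl x = val hl x' ∧ val hl y = val hl y' := by
  rw [val_eq] at h
  have h1 := hl.inf_iff.1 (hl.mono (beq_prB x y x' y') h)
  exact ⟨val_eq.2 h1.1, val_eq.2 h1.2⟩

theorem isPair_inj {p x y x' y' : X hl} (h : IsPair (E hl) p x y) (h' : IsPair (E hl) p x' y') :
    x = x' ∧ y = y' := by
  obtain ⟨p, rfl⟩ := exists_name p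
  obtain ⟨x, rfl⟩ := exists_name x
  obtain ⟨y, rfl⟩ := exists_name y
  obtain ⟨x', rfl⟩ := exists_name x'
  obtain ⟨y', rfl⟩ := exists_name y'
  rw [isPair_val] at h h'
  rw [h] at h'
  exact prB_inj h'

theorem isPair_uniq {p p' x y : X hl} (h : IsPair (E hl) p x y) (h' : IsPair (E hl) p' x y) :
    p = p' := by
  obtain ⟨p, rfl⟩ := exists_name p
  obtain ⟨p', rfl⟩ := exists_name p'
  obtain ⟨x, rfl⟩ := exists_name x
  obtain ⟨y, rfl⟩ := exists_name y
  rw [isPair_val] at h h'
  rw [h, h']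

theorem IsMap.uniq {f a b x y y' : X hl} (h : IsMap (E hl) f a b) (h1 : App (E hl) f x y)
    (h2 : App (E hl) f x y') : y = y' := by
  obtain ⟨p, hp, hpf⟩ := h1
  obtain ⟨x', y'', hp', hx, _⟩ := h.1 p hpf
  obtain ⟨rfl, rfl⟩ := isPair_inj hp hp'
  obtain ⟨w, _, hw⟩ := h.2 x hx
  rw [hw y ⟨p, hp, hpf⟩, hw y' h2]

theorem IsMap.mem {f a b x y : X hl} (h : IsMap (E hl) f a b) (h1 : App (E hl) f x y) :
    E hl x a ∧ E hl y b := by
  obtain ⟨p, hp, hpf⟩ := h1
  obtain ⟨x', y', hp', hx, hy⟩ := h.1 p hpf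
  obtain ⟨rfl, rfl⟩ := isPair_inj hp hp'
  exact ⟨hx, hy⟩

variable {ι κ : Type} {c : ι → BSet D} {c' : κ → BSet D}

/-- The name of the relation between `c i` and `c' k` with truth values `w i k`. -/
def nrel (c : ι → BSet D) (c' : κ → BSet D) (w : ι → κ → D) : BSet D :=
  nsub (fun i : ι × κ => prB (c i.1) (c' i.2)) fun i => w i.1 i.2

theorem disj_prB (hc : Disj c) (hc' : Disj c') :
    Disj fun i : ι × κ => prB (c i.1) (c' i.2) := by
  intro i j hij
  rw [beq_eq_bot_iff]
  intro lam hl h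
  obtain ⟨h1, h2⟩ := prB_inj h
  apply hij
  have e1 : i.1 = j.1 := by
    by_contra hne
    exact beq_eq_bot_iff.1 (hc _ _ hne) lam hl h1
  have e2 : i.2 = j.2 := by
    by_contra hne
    exact beq_eq_bot_iff.1 (hc' _ _ hne) lam hl h2
  exact Prod.ext e1 e2

theorem app_nrel (hc : Disj c) (hc' : Disj c') {w : ι → κ → D} {i : ι} {k : κ} :
    App (E hl) (val hl (nrel c c' w)) (val hl (c i)) (val hl (c' k)) ↔ lam (w i k) := by
  rw [app_val]
  exact E_nsub_c (disj_prB hc hc') (i := (i, k))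

end pairs

/-! ### Forcing -/

section forcing

variable {P : Type u} [Preorder P]

theorem fc_eq_iff {p : P} {x y : BSet (RO P)} :
    Fc p (fun _ _ v => v 0 = v 1) (ps [x, y]) ↔ gen p ≤ beq x y := by
  rw [le_iff_uf]
  exact forall_congr' fun lam => forall_congr' fun hl => imp_congr_right fun _ => val_eq

theorem fc_mem_iff {p : P} {x y : BSet (RO P)} :
    Fc p (fun _ E v => E (v 0) (v 1)) (ps [x, y]) ↔ gen p ≤ bmem x y := by
  rw [le_iff_uf]
  exact forall_congr' fun lam => forall_congr' fun hl => imp_congr_right fun _ => E_val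

/-- Subsets of countable standard sets are decided. -/
theorem decide_subset (hP : SigmaClosed P) {ι : Type} [Countable ι] {c : ι → BSet (RO P)}
    (hc : Disj c) {p : P} {x : BSet (RO P)}
    (h : Fc p (fun _ E v => Sub E (v 0) (v 1)) (ps [x, nall c])) :
    ∃ q ≤ p, ∃ A : Set ι, Fc q (fun _ _ v => v 0 = v 1) (ps [x, nchk c A]) := by
  obtain ⟨q, hq, hd⟩ := hP.meet' (ι := ι) p
    (fun i q => Fc q (fun _ E v => E (v 0) (v 1)) (ps [c i, x]) ∨
      Fc q (fun _ E v => ¬ E (v 0) (v 1)) (ps [c i, x]))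
    (fun i q r hd hr => hd.imp (fun h => h.mono hr) (fun h => h.mono hr))
    (fun i q _ => Fc.dec (FO.mem 0 1) _ q)
  refine ⟨q, hq, {i | Fc q (fun _ E v => E (v 0) (v 1)) (ps [c i, x])}, ?_⟩
  intro lam hl hlam
  refine eq_nchk (a := gen q) hc (fun lam hl hlam => (h.mono hq) lam hl hlam) ?_ hl hlam
  intro i lam hl hlam
  rcases hd i with h1 | h1
  · exact iff_of_true (h1 lam hl hlam) h1
  · refine iff_of_false (h1 lam hl hlam) fun h2 => ?_
    exact h1 lam hl hlam (h2 lam hl hlam)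

/-- The name of a real (a set of natural numbers). -/
noncomputable def rl {D : Type u} [CompleteBooleanAlgebra D] : Set ℕ → BSet D := nchk natB

theorem disj_rl {D : Type u} [CompleteBooleanAlgebra D] : Disj (rl : Set ℕ → BSet D) :=
  disj_nchk disj_natB

theorem decide_real (hP : SigmaClosed P) {p : P} {x : BSet (RO P)}
    (h : Fc p (fun _ E v => Sub E (v 0) (v 1)) (ps [x, omB _])) :
    ∃ q ≤ p, ∃ A : Set ℕ, Fc q (fun _ _ v => v 0 = v 1) (ps [x, rl A]) :=
  decide_subset hP disj_natB h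

/-- A truth value is below a supremum if it is so densely. -/
theorem le_iSup_of_dense {ι : Type*} {a : RO P} {b : ι → RO P}
    (h : ∀ p : P, gen p ≤ a → ∃ q ≤ p, ∃ i, gen q ≤ b i) : a ≤ ⨆ i, b i := by
  intro p hp
  rw [RO.mem_iSup]
  intro q hq
  obtain ⟨r, hr, i, hi⟩ := h q (gen_le_iff.2 (RO.mem_lower hp hq))
  exact ⟨r, hr, i, gen_le_iff.1 hi⟩

variable {lam : RO P → Prop} {hl : IsUF lam}

theorem real_mix (hP : SigmaClosed P) {x : BSet (RO P)}
    (h : Sub (E hl) (val hl x) (val hl (omB _))) : lam (⨆ A : Set ℕ, beq x (rl A)) := by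
  have h1 : lam (tvq (Sub.fo 0 1) (ps [x, omB (RO P)])) := (tvq_iff _ _ hl).2 h
  refine hl.mono ?_ h1
  refine le_iSup_of_dense fun p hp => ?_
  have h2 : Fc p (fun _ E v => Sub E (v 0) (v 1)) (ps [x, omB _]) := by
    intro lam hl hlam
    exact (tvq_iff _ _ hl).1 (hl.mono hp hlam)
  obtain ⟨q, hq, A, hA⟩ := decide_real hP h2
  exact ⟨q, hq, A, fc_eq_iff.1 hA⟩

theorem rl_sub (A : Set ℕ) : Sub (E hl) (val hl (rl A)) (val hl (omB _)) := nchk_sub_nall

theorem E_nall_rl (hP : SigmaClosed P) {x : X hl} :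
    E hl x (val hl (nall rl)) ↔ Sub (E hl) x (val hl (omB _)) := by
  obtain ⟨x, rfl⟩ := exists_name x
  constructor
  · intro h
    rw [E_nall] at h
    exact mix' (Q := fun _ E v => Sub E (v 0) (v 1)) (v := ps [omB _]) (Sub.fo 0 1)
      (fun A lam hl => rl_sub A) hl h
  · intro h
    rw [E_nall]
    exact real_mix hP h

theorem isFinFamilies_nfin (hP : SigmaClosed P) :
    IsFinFamilies (E hl) (val hl (omB _)) (val hl (nfin rl)) := by
  intro s
  rw [mem_nfin_iff]
  refine and_congr_right fun _ => forall_congr' fun x => imp_congr_right fun _ => ?_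
  exact E_nall_rl hP

theorem isFinFamilies_uniq {w d d' : X hl} (h : IsFinFamilies (E hl) w d)
    (h' : IsFinFamilies (E hl) w d') : d = d' := ext_E fun s => (h s).trans (h' s).symm

theorem isFinSubsets_uniq {w d d' : X hl} (h : IsFinSubsets (E hl) w d)
    (h' : IsFinSubsets (E hl) w d') : d = d' := ext_E fun s => (h s).trans (h' s).symm

/-- A value in a standard set is decided. -/
theorem decide_value {κ : Type} {c' : κ → BSet (RO P)} {p : P} {f d e x : BSet (RO P)}
    (hf : Fc p (fun _ E v => IsMap E (v 0) (v 1) (v 2)) (ps [f, d, e]))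
    (hx : Fc p (fun _ E v => E (v 0) (v 1)) (ps [x, d]))
    (he : Fc p (fun _ E v => Sub E (v 0) (v 1)) (ps [e, nall c'])) :
    ∃ q ≤ p, ∃ k, Fc q (fun _ E v => App E (v 0) (v 1) (v 2)) (ps [f, x, c' k]) := by
  obtain ⟨y, hy⟩ := exists_witness (Q := fun _ E v => App E (v 1) (v 2) (v 0) ∧ E (v 0) (v 3))
    ((App.fo 1 2 0).and (FO.mem 0 3)) (ps [f, x, e]) (gen p) (by
      intro lam hl hlam
      have h1 : IsMap (E hl) (val hl f) (val hl d) (val hl e) := hf lam hl hlam
      obtain ⟨y, hy, _⟩ := h1.2 _ (hx lam hl hlam)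
      exact ⟨y, hy, (h1.mem hy).2⟩)
  have h2 : gen p ≤ ⨆ k, beq y (c' k) := by
    rw [le_iff_uf]
    intro lam hl hlam
    rw [← E_nall (hl := hl)]
    exact he lam hl hlam _ (hy lam hl hlam).2
  obtain ⟨q, hq, k, hk⟩ := exists_index h2
  refine ⟨q, hq, k, ?_⟩
  intro lam hl hlam
  have h3 : val hl y = val hl (c' k) := val_eq.2 (hl.mono hk hlam)
  have h4 : App (E hl) (val hl f) (val hl x) (val hl y) :=
    (hy lam hl (hl.mono (gen_mono hq) hlam)).1
  rw [h3] at h4
  exact h4

/-- A map from a countable standard set to a standard set is decided. -/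
theorem decide_map (hP : SigmaClosed P) {ι κ : Type} [Countable ι] {c : ι → BSet (RO P)}
    {c' : κ → BSet (RO P)} {p : P} {f d e : BSet (RO P)}
    (hf : Fc p (fun _ E v => IsMap E (v 0) (v 1) (v 2)) (ps [f, d, e]))
    (hx : ∀ i, Fc p (fun _ E v => E (v 0) (v 1)) (ps [c i, d]))
    (he : Fc p (fun _ E v => Sub E (v 0) (v 1)) (ps [e, nall c'])) :
    ∃ q ≤ p, ∃ F : ι → κ, ∀ i,
      Fc q (fun _ E v => App E (v 0) (v 1) (v 2)) (ps [f, c i, c' (F i)]) := by
  obtain ⟨q, hq, h⟩ := hP.meet' (ι := ι) p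
    (fun i q => ∃ k, Fc q (fun _ E v => App E (v 0) (v 1) (v 2)) (ps [f, c i, c' k]))
    (fun i q r hd hr => hd.imp fun k h => h.mono hr)
    (fun i q hq => decide_value (hf.mono hq) ((hx i).mono hq) (he.mono hq))
  choose F hF using h
  exact ⟨q, hq, F, hF⟩

end forcing

end TKF
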