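import Pool.Agent.W_8dd142_h88.Real

/-!
# More tools for names (models of ZFC given by regular open algebras)

`nat_all`, `fam_all`, `sub_all`: first-order properties of the elements of `ω`, of a standard
family, of a family with weights. `seqB`: names of sequences. `map_ext`: maps with standard domain.
-/

universe u

namespace TKF

open IM IM.BSet BVM

/-- A true statement is forced by some condition. -/
theorem Fc.exists_of {P : Type*} [Preorder P]
    {Q : ∀ X : Type _, (X → X → Prop) → (ℕ → X) → Prop} {v : ℕ → BSet (RO P)} (hQ : FO Q)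
    {lam : RO P → Prop} (hl : IsUF lam)
    (h : Q (X hl) (E hl) (fun n => val hl (v n))) : ∃ q : P, Fc q Q v := by
  obtain ⟨q, hq⟩ := exists_gen (a := tvq hQ v) (by
    intro h0
    apply hl.bot
    rw [← h0]
    exact (tvq_iff hQ v hl).2 h)
  exact ⟨q, (fc_iff hQ).2 (gen_le_iff.1 hq)⟩

section names

variable {D : Type u} [CompleteBooleanAlgebra D]

/-- Elements of `ω`. -/
theorem all_nat {Q : ∀ X : Type (u + 1), (X → X → Prop) → (ℕ → X) → Prop} (hQ : FO Q)
    {v : ℕ → BSet D} (a : D)
    (h : ∀ (n : ℕ) (lam : D → Prop) (hl : IsUF lam), lam a →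
      Q (X hl) (E hl) (fun n' => val hl (cons (natB n) v n')))
    {lam : D → Prop} (hl : IsUF lam) (ha : lam a) {x : X hl}
    (hx : E hl x (val hl (omB D))) : Q (X hl) (E hl) (cons x fun n => val hl (v n)) := by
  obtain ⟨x, rfl⟩ := exists_name x
  rw [← comp_cons (val hl)]
  rw [omB, E_nall] at hx
  exact mix hQ a h hl ha hx

/-- Elements of a standard family. -/
theorem all_nall {ι : Type} {c : ι → BSet D}
    {Q : ∀ X : Type (u + 1), (X → X → Prop) → (ℕ → X) → Prop} (hQ : FO Q)
    {v : ℕ → BSet D} (a : D)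
    (h : ∀ (i : ι) (lam : D → Prop) (hl : IsUF lam), lam a →
      Q (X hl) (E hl) (fun n' => val hl (cons (c i) v n')))
    {lam : D → Prop} (hl : IsUF lam) (ha : lam a) {x : X hl}
    (hx : E hl x (val hl (nall c))) : Q (X hl) (E hl) (cons x fun n => val hl (v n)) := by
  obtain ⟨x, rfl⟩ := exists_name x
  rw [← comp_cons (val hl)]
  rw [E_nall] at hx
  exact mix hQ a h hl ha hx

/-- Elements of a family with weights. -/
theorem all_nsub {ι : Type} {c : ι → BSet D} {w : ι → D}
    {Q : ∀ X : Type (u + 1), (X → X → Prop) → (ℕ → X) → Prop} (hQ : FO Q)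
    {v : ℕ → BSet D} (a : D)
    (h : ∀ (i : ι) (lam : D → Prop) (hl : IsUF lam), lam a → lam (w i) →
      Q (X hl) (E hl) (fun n' => val hl (cons (c i) v n')))
    {lam : D → Prop} (hl : IsUF lam) (ha : lam a) {x : X hl}
    (hx : E hl x (val hl (nsub c w))) : Q (X hl) (E hl) (cons x fun n => val hl (v n)) := by
  obtain ⟨x, rfl⟩ := exists_name x
  rw [← comp_cons (val hl)]
  rw [E_nsub] at hx
  rw [← tvq_iff hQ _ hl]
  have h1 : a ⊓ (⨆ i, w i ⊓ beq x (c i)) ≤ tvq hQ (cons x v) := by
    rw [inf_iSup_eq]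
    refine iSup_le fun i => ?_
    rw [le_iff_uf]
    intro lam hl h2
    obtain ⟨h3, h4⟩ := hl.inf_iff.1 h2
    obtain ⟨h5, h6⟩ := hl.inf_iff.1 h4
    rw [tvq_iff hQ _ hl]
    have h7 := h i lam hl h3 h5
    have h8 : (fun n => val hl (cons (c i) v n)) = fun n => val hl (cons x v n) := by
      funext n
      cases n with
      | zero => exact (val_eq.2 h6).symm
      | succ n => rfl
    rw [← h8]
    exact h7
  exact hl.mono h1 (hl.inf ha hx)

/-- An element of a family with weights. -/
theorem E_nsub_of {ι : Type} {c : ι → BSet D} {w : ι → D} {lam : D → Prop} {hl : IsUF lam}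
    (i : ι) (h : lam (w i)) : E hl (val hl (c i)) (val hl (nsub c w)) := by
  rw [E_nsub]
  refine hl.mono (le_iSup (fun j => w j ⊓ beq (c i) (c j)) i) ?_
  rw [beq_refl, inf_top_eq]
  exact h

variable {lam : D → Prop} {hl : IsUF lam}

/-- The name of the sequence of the `F n`. -/
def nseq (F : ℕ → BSet D) : BSet D := nall fun n => prB (natB n) (F n)

theorem isMap_nseq (F : ℕ → BSet D) :
    IsMap (E hl) (val hl (nseq F)) (val hl (omB D)) (val hl (nall F)) := by
  constructor
  · intro p hp
    refine all_nall (c := fun n => prB (natB n) (F n))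
      (Q := fun _ E v => ∃ x y, IsPair E (v 0) x y ∧ E x (v 1) ∧ E y (v 2))
      (v := ps [omB D, nall F])
      (by repeat' (with_reducible first | apply IsPair.fo | apply FO.mem | apply FO.and | apply FO.ex))
      ⊤ ?_ hl hl.top hp
    intro n lam hl _
    exact ⟨val hl (natB n), val hl (F n), isPair_val.2 rfl, E_nall_c n, E_nall_c n⟩
  · intro x hx
    refine all_nat (Q := fun _ E v => ∃ y, App E (v 1) (v 0) y ∧ ∀ y', App E (v 1) (v 0) y' → y' = y)
      (v := ps [nseq F])
      (by repeat' (with_reducible first | apply App.fo | apply FO.mem | apply FO.eq | apply FO.imp | apply FO.and | apply FO.all | apply FO.ex))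
      ⊤ ?_ hl hl.top hx
    intro n lam hl _
    refine ⟨val hl (F n), ⟨val hl (prB (natB n) (F n)), isPair_val.2 rfl,
      E_nall_c (c := fun n => prB (natB n) (F n)) n⟩, ?_⟩
    rintro y' ⟨p, hp, hpf⟩
    obtain ⟨y', rfl⟩ := exists_name y'
    refine all_nall (c := fun n => prB (natB n) (F n))
      (Q := fun _ E v => IsPair E (v 0) (v 1) (v 2) → v 2 = v 3)
      (v := ps [natB n, y', F n])
      (by repeat' (with_reducible first | apply IsPair.fo | apply FO.eq | apply FO.imp))
      ⊤ ?_ hl hl.top hpf hp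
    intro m lam hl _ hp
    have h2 : val hl (prB (natB m) (F m)) = val hl (prB (natB n) y') := isPair_val.1 hp
    obtain ⟨h3, h4⟩ := prB_inj h2
    have h5 := natB_inj h3
    change val hl y' = val hl (F n)
    rw [← h4, h5]

theorem app_nseq (F : ℕ → BSet D) (n : ℕ) :
    App (E hl) (val hl (nseq F)) (val hl (natB n)) (val hl (F n)) :=
  ⟨val hl (prB (natB n) (F n)), isPair_val.2 rfl, E_nall_c (c := fun n => prB (natB n) (F n)) n⟩

theorem app_nseq_uniq {F : ℕ → BSet D} {n : ℕ} {y : X hl}
    (h : App (E hl) (val hl (nseq F)) (val hl (natB n)) y) : y = val hl (F n) :=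
  (isMap_nseq F).uniq h (app_nseq F n)

/-- Singletons. -/
theorem exists_sg (z : X hl) : ∃ A, IsFin (E hl) A ∧ ∀ y, E hl y A ↔ y = z := by
  obtain ⟨z, rfl⟩ := exists_name z
  refine ⟨val hl (nchk (fun _ : Unit => z) (({()} : Finset Unit) : Set Unit)), isFin_nchk _,
    fun y => ?_⟩
  rw [E_nchk_finset]
  constructor
  · rintro ⟨_, _, h⟩
    exact h
  · intro h
    exact ⟨(), Finset.mem_singleton_self _, h⟩

/-- Finitely many elements form a finite set. -/
theorem exists_finset {ι : Type} (S : Finset ι) (z : ι → X hl) :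
    ∃ A, IsFin (E hl) A ∧ ∀ y, E hl y A ↔ ∃ i ∈ S, y = z i := by
  have h : ∀ i, ∃ n : BSet D, z i = val hl n := fun i => by
    obtain ⟨n, hn⟩ := exists_name (z i)
    exact ⟨n, hn.symm⟩
  choose n hn using h
  refine ⟨val hl (nchk n (S : Set ι)), isFin_nchk _, fun y => ?_⟩
  rw [E_nchk_finset]
  simp only [hn]

end names

/-! ### Finitely many conditions -/

section forcing

variable {P : Type u} [Preorder P]

/-- Finitely many open dense sets can be met. -/
theorem meet_finset {ι : Type*} (S : Finset ι) (p : P) (D : ι → P → Prop)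
    (hop : ∀ i q r, D i q → r ≤ q → D i r) (hd : ∀ i ∈ S, ∀ q ≤ p, ∃ r ≤ q, D i r) :
    ∃ q ≤ p, ∀ i ∈ S, D i q := by
  classical
  induction S using Finset.induction_on with
  | empty => exact ⟨p, le_refl p, fun i hi => absurd hi (Finset.notMem_empty i)⟩
  | insert i S _ ih =>
    obtain ⟨q, hq, h1⟩ := ih fun j hj => hd j (Finset.mem_insert_of_mem hj)
    obtain ⟨r, hr, h2⟩ := hd i (Finset.mem_insert_self i S) q hq
    refine ⟨r, hr.trans hq, fun j hj => ?_⟩
    rcases Finset.mem_insert.1 hj with rfl | hj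
    · exact h2
    · exact hop j q r (h1 j hj) hr

theorem meet_fin {ι : Type*} [Finite ι] (p : P) (D : ι → P → Prop)
    (hop : ∀ i q r, D i q → r ≤ q → D i r) (hd : ∀ i, ∀ q ≤ p, ∃ r ≤ q, D i r) :
    ∃ q ≤ p, ∀ i, D i q := by
  have := Fintype.ofFinite ι
  obtain ⟨q, hq, h⟩ := meet_finset Finset.univ p D hop fun i _ => hd i
  exact ⟨q, hq, fun i => h i (Finset.mem_univ i)⟩

/-- A property of standard elements which holds densely holds for all ultrafilters. -/
theorem of_dense {Q : ∀ X : Type (u + 1), (X → X → Prop) → (ℕ → X) → Prop} (hQ : FO Q)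
    {v : ℕ → BSet (RO P)} {p : P} (h : ∀ q ≤ p, ∃ r ≤ q, Fc r Q v)
    {lam : RO P → Prop} (hl : IsUF lam) (hp : lam (gen p)) :
    Q (X hl) (E hl) (fun n => val hl (v n)) := Fc.dense hQ h lam hl hp

end forcing

end TKF
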