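import Pool.Agent.W_8dd142_h88.FO
import Pool.Agent.W_8dd142_h88.Defs

/-!
# The notions are first-order (MP_8dd142_lc)
-/

universe u

namespace TKF

open IM

theorem Sub.fo (i j : ℕ) : FO.{u} (fun _ E v => Sub E (v i) (v j)) := by
  unfold Sub
  repeat' (with_reducible first | apply FO.mem | apply FO.eq | apply FO.and | apply FO.or | apply FO.iff | apply FO.not | apply FO.imp | apply FO.all | apply FO.ex)

theorem IsEmp.fo (i : ℕ) : FO.{u} (fun _ E v => IsEmp E (v i)) := by
  unfold IsEmp
  repeat' (with_reducible first | apply Sub.fo | apply FO.mem | apply FO.eq | apply FO.and | apply FO.or | apply FO.iff | apply FO.not | apply FO.imp | apply FO.all | apply FO.ex)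

theorem IsSuc.fo (i j : ℕ) : FO.{u} (fun _ E v => IsSuc E (v i) (v j)) := by
  unfold IsSuc
  repeat' (with_reducible first | apply IsEmp.fo | apply Sub.fo | apply FO.mem | apply FO.eq | apply FO.and | apply FO.or | apply FO.iff | apply FO.not | apply FO.imp | apply FO.all | apply FO.ex)

theorem IsInd.fo (i : ℕ) : FO.{u} (fun _ E v => IsInd E (v i)) := by
  unfold IsInd
  repeat' (with_reducible first | apply IsSuc.fo | apply IsEmp.fo | apply Sub.fo | apply FO.mem | apply FO.eq | apply FO.and | apply FO.or | apply FO.iff | apply FO.not | apply FO.imp | apply FO.all | apply FO.ex)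

theorem IsOmega.fo (i : ℕ) : FO.{u} (fun _ E v => IsOmega E (v i)) := by
  unfold IsOmega
  repeat' (with_reducible first | apply IsInd.fo | apply IsSuc.fo | apply IsEmp.fo | apply Sub.fo | apply FO.mem | apply FO.eq | apply FO.and | apply FO.or | apply FO.iff | apply FO.not | apply FO.imp | apply FO.all | apply FO.ex)

theorem IsUPair.fo (i j k : ℕ) : FO.{u} (fun _ E v => IsUPair E (v i) (v j) (v k)) := by
  unfold IsUPair
  repeat' (with_reducible first | apply IsOmega.fo | apply IsInd.fo | apply IsSuc.fo | apply IsEmp.fo | apply Sub.fo | apply FO.mem | apply FO.eq | apply FO.and | apply FO.or | apply FO.iff | apply FO.not | apply FO.imp | apply FO.all | apply FO.ex)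

theorem IsPair.fo (i j k : ℕ) : FO.{u} (fun _ E v => IsPair E (v i) (v j) (v k)) := by
  unfold IsPair
  repeat' (with_reducible first | apply IsUPair.fo | apply IsOmega.fo | apply IsInd.fo | apply IsSuc.fo | apply IsEmp.fo | apply Sub.fo | apply FO.mem | apply FO.eq | apply FO.and | apply FO.or | apply FO.iff | apply FO.not | apply FO.imp | apply FO.all | apply FO.ex)

theorem App.fo (i j k : ℕ) : FO.{u} (fun _ E v => App E (v i) (v j) (v k)) := by
  unfold App
  repeat' (with_reducible first | apply IsPair.fo | apply IsUPair.fo | apply IsOmega.fo | apply IsInd.fo | apply IsSuc.fo | apply IsEmp.fo | apply Sub.fo | apply FO.mem | apply FO.eq | apply FO.and | apply FO.or | apply FO.iff | apply FO.not | apply FO.imp | apply FO.all | apply FO.ex)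

theorem IsMap.fo (i j k : ℕ) : FO.{u} (fun _ E v => IsMap E (v i) (v j) (v k)) := by
  unfold IsMap
  repeat' (with_reducible first | apply App.fo | apply IsPair.fo | apply IsUPair.fo | apply IsOmega.fo | apply IsInd.fo | apply IsSuc.fo | apply IsEmp.fo | apply Sub.fo | apply FO.mem | apply FO.eq | apply FO.and | apply FO.or | apply FO.iff | apply FO.not | apply FO.imp | apply FO.all | apply FO.ex)

theorem IsFin.fo (i : ℕ) : FO.{u} (fun _ E v => IsFin E (v i)) := by
  unfold IsFin
  repeat' (with_reducible first | apply IsMap.fo | apply App.fo | apply IsPair.fo | apply IsUPair.fo | apply IsOmega.fo | apply IsInd.fo | apply IsSuc.fo | apply IsEmp.fo | apply Sub.fo | apply FO.mem | apply FO.eq | apply FO.and | apply FO.or | apply FO.iff | apply FO.not | apply FO.imp | apply FO.all | apply FO.ex)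

theorem IsFinSubsets.fo (i j : ℕ) : FO.{u} (fun _ E v => IsFinSubsets E (v i) (v j)) := by
  unfold IsFinSubsets
  repeat' (with_reducible first | apply IsFin.fo | apply IsMap.fo | apply App.fo | apply IsPair.fo | apply IsUPair.fo | apply IsOmega.fo | apply IsInd.fo | apply IsSuc.fo | apply IsEmp.fo | apply Sub.fo | apply FO.mem | apply FO.eq | apply FO.and | apply FO.or | apply FO.iff | apply FO.not | apply FO.imp | apply FO.all | apply FO.ex)

theorem IsFinFamilies.fo (i j : ℕ) : FO.{u} (fun _ E v => IsFinFamilies E (v i) (v j)) := by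
  unfold IsFinFamilies
  repeat' (with_reducible first | apply IsFinSubsets.fo | apply IsFin.fo | apply IsMap.fo | apply App.fo | apply IsPair.fo | apply IsUPair.fo | apply IsOmega.fo | apply IsInd.fo | apply IsSuc.fo | apply IsEmp.fo | apply Sub.fo | apply FO.mem | apply FO.eq | apply FO.and | apply FO.or | apply FO.iff | apply FO.not | apply FO.imp | apply FO.all | apply FO.ex)

theorem IsUltra.fo (i j : ℕ) : FO.{u} (fun _ E v => IsUltra E (v i) (v j)) := by
  unfold IsUltra
  repeat' (with_reducible first | apply IsFinFamilies.fo | apply IsFinSubsets.fo | apply IsFin.fo | apply IsMap.fo | apply App.fo | apply IsPair.fo | apply IsUPair.fo | apply IsOmega.fo | apply IsInd.fo | apply IsSuc.fo | apply IsEmp.fo | apply Sub.fo | apply FO.mem | apply FO.eq | apply FO.and | apply FO.or | apply FO.iff | apply FO.not | apply FO.imp | apply FO.all | apply FO.ex)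

theorem IsCofinal.fo (i j : ℕ) : FO.{u} (fun _ E v => IsCofinal E (v i) (v j)) := by
  unfold IsCofinal
  repeat' (with_reducible first | apply IsUltra.fo | apply IsFinFamilies.fo | apply IsFinSubsets.fo | apply IsFin.fo | apply IsMap.fo | apply App.fo | apply IsPair.fo | apply IsUPair.fo | apply IsOmega.fo | apply IsInd.fo | apply IsSuc.fo | apply IsEmp.fo | apply Sub.fo | apply FO.mem | apply FO.eq | apply FO.and | apply FO.or | apply FO.iff | apply FO.not | apply FO.imp | apply FO.all | apply FO.ex)

theorem IsMono.fo (i : ℕ) : FO.{u} (fun _ E v => IsMono E (v i)) := by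
  unfold IsMono
  repeat' (with_reducible first | apply IsCofinal.fo | apply IsUltra.fo | apply IsFinFamilies.fo | apply IsFinSubsets.fo | apply IsFin.fo | apply IsMap.fo | apply App.fo | apply IsPair.fo | apply IsUPair.fo | apply IsOmega.fo | apply IsInd.fo | apply IsSuc.fo | apply IsEmp.fo | apply Sub.fo | apply FO.mem | apply FO.eq | apply FO.and | apply FO.or | apply FO.iff | apply FO.not | apply FO.imp | apply FO.all | apply FO.ex)

/-- The matrix of `IsTukeyTop`. -/
def TopMap {X : Type*} (E : X → X → Prop) (w U d g : X) : Prop :=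
  IsFinFamilies E w d ∧ IsMap E g d U ∧
  ∀ a, Sub E a d → (∃ y, E y U ∧ ∀ s t, E s a → App E g s t → Sub E y t) →
    ∃ b, E b d ∧ ∀ s, E s a → Sub E s b

theorem TopMap.fo (i j k l : ℕ) :
    FO.{u} (fun _ E v => TopMap E (v i) (v j) (v k) (v l)) := by
  unfold TopMap
  repeat' (with_reducible first | apply IsMono.fo | apply IsCofinal.fo | apply IsUltra.fo | apply IsFinFamilies.fo | apply IsFinSubsets.fo | apply IsFin.fo | apply IsMap.fo | apply App.fo | apply IsPair.fo | apply IsUPair.fo | apply IsOmega.fo | apply IsInd.fo | apply IsSuc.fo | apply IsEmp.fo | apply Sub.fo | apply FO.mem | apply FO.eq | apply FO.and | apply FO.or | apply FO.iff | apply FO.not | apply FO.imp | apply FO.all | apply FO.ex)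

/-- The matrix of `IsFinGenOn`. -/
def GenMap {X : Type*} (E : X → X → Prop) (w f C d F : X) : Prop :=
  IsFinSubsets E w d ∧ IsMap E F d d ∧ IsMono E F ∧
  ∀ x y, E x C → App E f x y → ∀ m, E m y ↔
    ∃ k s t, E k w ∧ (∀ i, E i s ↔ E i x ∧ E i k) ∧ App E F s t ∧ E m t

theorem GenMap.fo (i j k l m : ℕ) :
    FO.{u} (fun _ E v => GenMap E (v i) (v j) (v k) (v l) (v m)) := by
  unfold GenMap
  repeat' (with_reducible first | apply TopMap.fo | apply IsMono.fo | apply IsCofinal.fo | apply IsUltra.fo | apply IsFinFamilies.fo | apply IsFinSubsets.fo | apply IsFin.fo | apply IsMap.fo | apply App.fo | apply IsPair.fo | apply IsUPair.fo | apply IsOmega.fo | apply IsInd.fo | apply IsSuc.fo | apply IsEmp.fo | apply Sub.fo | apply FO.mem | apply FO.eq | apply FO.and | apply FO.or | apply FO.iff | apply FO.not | apply FO.imp | apply FO.all | apply FO.ex)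

theorem IsMonCofinal.fo (i j k : ℕ) :
    FO.{u} (fun _ E v => IsMonCofinal E (v i) (v j) (v k)) := by
  unfold IsMonCofinal
  repeat' (with_reducible first | apply GenMap.fo | apply TopMap.fo | apply IsMono.fo | apply IsCofinal.fo | apply IsUltra.fo | apply IsFinFamilies.fo | apply IsFinSubsets.fo | apply IsFin.fo | apply IsMap.fo | apply App.fo | apply IsPair.fo | apply IsUPair.fo | apply IsOmega.fo | apply IsInd.fo | apply IsSuc.fo | apply IsEmp.fo | apply Sub.fo | apply FO.mem | apply FO.eq | apply FO.and | apply FO.or | apply FO.iff | apply FO.not | apply FO.imp | apply FO.all | apply FO.ex)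

end TKF
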