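import Pool.Agent.W_8dd142_h88.Force
import Pool.Agent.W_8dd142_h88.Notions
import Pool.Agent.W_MP_0bf392_lc.BPair

/-!
# Names (MP_8dd142_lc)

`nsub c w`: the name with elements `c i` of weight `w i` (`i : ι`, `ι : Type`); `nall c` all weights
`⊤`; `nchk c A`: the name of `{c i : i ∈ A}`. Natural numbers, `ω`.
-/

universe u

namespace TKF

open IM IM.BSet BVM

variable {D : Type u} [CompleteBooleanAlgebra D]

/-- Parameter lists. -/
def ps : List (BSet D) → ℕ → BSet D
  | [] => fun _ => natB 0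
  | x :: l => cons x (ps l)

theorem beq_eq_bot_iff {x y : BSet D} :
    beq x y = ⊥ ↔ ∀ (lam : D → Prop) (hl : IsUF lam), val hl x ≠ val hl y := by
  rw [eq_bot_iff_uf]
  exact forall_congr' fun lam => forall_congr' fun hl => not_congr val_eq.symm

section sub

variable {ι : Type} (c : ι → BSet D) (w : ι → D)

/-- The name with elements `c i` of weight `w i`. -/
def nsub : BSet D := BSet.mk (ULift.{u} ι) (fun i => c i.down) (fun i => w i.down)

/-- The name of the set of all `c i`. -/
def nall : BSet D := nsub c fun _ => ⊤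

open Classical in
/-- The name of the set of all `c i`, `i ∈ A`. -/
noncomputable def nchk (A : Set ι) : BSet D := nsub c fun i => if i ∈ A then ⊤ else ⊥

/-- The names `c i` denote different objects. -/
def Disj : Prop := ∀ i j, i ≠ j → beq (c i) (c j) = ⊥

variable {c w}

theorem bmem_nsub (z : BSet D) : bmem z (nsub c w) = ⨆ i, w i ⊓ beq z (c i) := by
  apply le_antisymm
  · exact iSup_le fun i => le_iSup (fun i => w i ⊓ beq z (c i)) i.down
  · exact iSup_le fun i => le_iSup (fun i : ULift.{u} ι => w i.down ⊓ beq z (c i.down)) ⟨i⟩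

theorem bmem_nall (z : BSet D) : bmem z (nall c) = ⨆ i, beq z (c i) := by
  unfold nall
  rw [bmem_nsub]
  simp only [top_inf_eq]

theorem bmem_nsub_c (hc : Disj c) (i : ι) : bmem (c i) (nsub c w) = w i := by
  rw [bmem_nsub]
  apply le_antisymm
  · refine iSup_le fun j => ?_
    by_cases h : i = j
    · subst h
      exact inf_le_left
    · rw [hc i j h, inf_bot_eq]
      exact bot_le
  · refine le_iSup_of_le i ?_
    rw [beq_refl, inf_top_eq]

variable {lam : D → Prop} {hl : IsUF lam}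

theorem E_nsub {z : BSet D} :
    E hl (val hl z) (val hl (nsub c w)) ↔ lam (⨆ i, w i ⊓ beq z (c i)) := by
  rw [E_val, bmem_nsub]

theorem E_nsub_c (hc : Disj c) {i : ι} :
    E hl (val hl (c i)) (val hl (nsub c w)) ↔ lam (w i) := by
  rw [E_val, bmem_nsub_c hc]

theorem E_nall {z : BSet D} : E hl (val hl z) (val hl (nall c)) ↔ lam (⨆ i, beq z (c i)) := by
  rw [E_val, bmem_nall]

theorem E_nall_c (i : ι) : E hl (val hl (c i)) (val hl (nall c)) := by
  rw [E_nall]
  refine hl.mono (le_iSup (fun j => beq (c i) (c j)) i) ?_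
  rw [beq_refl]
  exact hl.top

theorem E_nchk_c (hc : Disj c) {A : Set ι} {i : ι} :
    E hl (val hl (c i)) (val hl (nchk c A)) ↔ i ∈ A := by
  unfold nchk
  rw [E_nsub_c hc]
  by_cases h : i ∈ A
  · simp only [h, if_true, iff_true]
    exact hl.top
  · simp only [h, if_false, iff_false]
    exact hl.bot

theorem nsub_sub_nall : Sub (E hl) (val hl (nsub c w)) (val hl (nall c)) := by
  intro z hz
  obtain ⟨z, rfl⟩ := exists_name z
  rw [E_nsub] at hz
  rw [E_nall]
  exact hl.mono (iSup_mono fun i => inf_le_right) hz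

theorem nchk_sub_nall {A : Set ι} : Sub (E hl) (val hl (nchk c A)) (val hl (nall c)) :=
  nsub_sub_nall

theorem ext_E {x y : X hl} (h : ∀ z, E hl z x ↔ E hl z y) : x = y := ax_ext x y h

theorem Sub.antisymm {x y : X hl} (h : Sub (E hl) x y) (h' : Sub (E hl) y x) : x = y :=
  ext_E fun z => ⟨h z, h' z⟩

/-- A name of a subset of `nall c` with decided elements is equal to some `nchk c A`. -/
theorem eq_nchk {A : Set ι} {a : D} {x : BSet D} (hc : Disj c)
    (h0 : ∀ (lam : D → Prop) (hl : IsUF lam), lam a → Sub (E hl) (val hl x) (val hl (nall c)))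
    (h1 : ∀ (i : ι) (lam : D → Prop) (hl : IsUF lam), lam a →
      (E hl (val hl (c i)) (val hl x) ↔ i ∈ A))
    {lam : D → Prop} (hl : IsUF lam) (ha : lam a) : val hl x = val hl (nchk c A) := by
  have key : ∀ z, E hl z (val hl (nall c)) → (E hl z (val hl x) ↔ E hl z (val hl (nchk c A))) := by
    intro z hz
    obtain ⟨z, rfl⟩ := exists_name z
    rw [E_nall] at hz
    exact mix (Q := fun X E v => E (v 0) (v 1) ↔ E (v 0) (v 2))
      ((FO.mem 0 1).iff (FO.mem 0 2)) (v := ps [x, nchk c A]) a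
      (fun i lam hl ha => (h1 i lam hl ha).trans (E_nchk_c hc).symm) hl ha hz
  refine ext_E fun z => ⟨fun hz => ?_, fun hz => ?_⟩
  · exact (key z (h0 lam hl ha z hz)).1 hz
  · exact (key z (nchk_sub_nall z hz)).2 hz

theorem nchk_sub_iff (hc : Disj c) {A B : Set ι} :
    Sub (E hl) (val hl (nchk c A)) (val hl (nchk c B)) ↔ A ⊆ B := by
  constructor
  · intro h i hi
    exact (E_nchk_c hc).1 (h _ ((E_nchk_c hc).2 hi))
  · intro h z hz
    obtain ⟨z, rfl⟩ := exists_name z
    rw [nchk, E_nsub] at hz ⊢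
    refine hl.mono (iSup_mono fun i => inf_le_inf_right _ ?_) hz
    by_cases hi : i ∈ A
    · simp [hi, h hi]
    · simp [hi]

theorem nchk_inj (hc : Disj c) {A B : Set ι} (h : val hl (nchk c A) = val hl (nchk c B)) :
    A = B := by
  apply Set.Subset.antisymm
  · rw [← nchk_sub_iff (hl := hl) hc, h]
    exact fun z hz => hz
  · rw [← nchk_sub_iff (hl := hl) hc, h]
    exact fun z hz => hz

theorem disj_nchk (hc : Disj c) : Disj (nchk c) := by
  intro A B hAB
  rw [beq_eq_bot_iff]
  intro lam hl h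
  exact hAB (nchk_inj hc h)

/-- The elements of `nchk c A` for a finite set `A`. -/
theorem E_nchk_finset {A : Finset ι} {z : X hl} :
    E hl z (val hl (nchk c (A : Set ι))) ↔ ∃ i ∈ A, z = val hl (c i) := by
  classical
  obtain ⟨z, rfl⟩ := exists_name z
  rw [nchk, E_nsub]
  constructor
  · intro h
    by_contra hcon
    push Not at hcon
    have h1 : lam (⨅ i ∈ A, (beq z (c i))ᶜ) := by
      refine hl.iInf_finset A _ fun i hi => ?_
      rw [hl.compl_iff, ← val_eq (hl := hl)]
      exact hcon i hi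
    refine hl.bot (hl.mono ?_ (hl.inf h h1))
    rw [iSup_inf_eq]
    refine iSup_le fun i => ?_
    by_cases hi : i ∈ A
    · have h2 : (⨅ i ∈ A, (beq z (c i))ᶜ) ≤ (beq z (c i))ᶜ := iInf₂_le i hi
      calc _ ≤ beq z (c i) ⊓ (beq z (c i))ᶜ := inf_le_inf inf_le_right h2
        _ = ⊥ := inf_compl_eq_bot
    · simp [hi]
  · rintro ⟨i, hi, h⟩
    rw [val_eq] at h
    refine hl.mono ?_ h
    refine le_iSup_of_le i ?_
    simp [hi]

end sub

/-! ### Natural numbers -/

section nat

variable {lam : D → Prop} {hl : IsUF lam}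

theorem E_natB {n : ℕ} {z : X hl} : E hl z (val hl (natB n)) ↔ ∃ m < n, z = val hl (natB m) := by
  induction n with
  | zero =>
    obtain ⟨z, rfl⟩ := exists_name z
    rw [E_val, bmem_natB_zero]
    constructor
    · intro h
      exact (hl.bot h).elim
    · rintro ⟨m, hm, _⟩
      omega
  | succ n ih =>
    obtain ⟨z, rfl⟩ := exists_name z
    rw [E_val, bmem_natB_succ, hl.sup_iff, ← E_val (hl := hl), ih, ← val_eq (hl := hl)]
    constructor
    · rintro (h | ⟨m, hm, h⟩)
      · exact ⟨n, by omega, h⟩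
      · exact ⟨m, by omega, h⟩
    · rintro ⟨m, hm, h⟩
      rcases Nat.lt_succ_iff_lt_or_eq.1 hm with h1 | rfl
      · exact Or.inr ⟨m, h1, h⟩
      · exact Or.inl h

theorem isSuc_natB (n : ℕ) : IsSuc (E hl) (val hl (natB (n + 1))) (val hl (natB n)) := by
  intro z
  rw [E_natB, E_natB]
  constructor
  · rintro ⟨m, hm, h⟩
    rcases Nat.lt_succ_iff_lt_or_eq.1 hm with h1 | rfl
    · exact Or.inl ⟨m, h1, h⟩
    · exact Or.inr h
  · rintro (⟨m, hm, h⟩ | h)
    · exact ⟨m, by omega, h⟩
    · exact ⟨n, by omega, h⟩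

theorem E_irrefl (x : X hl) : ¬ E hl x x := by
  obtain ⟨x, rfl⟩ := exists_name x
  have h := no_descending (fun _ : ℕ => x)
  rw [iInf_const] at h
  rw [E_val, h]
  exact hl.bot

theorem natB_inj {m n : ℕ} (h : val hl (natB m) = val hl (natB n)) : m = n := by
  rcases lt_trichotomy m n with h1 | h1 | h1
  · exfalso
    have h2 : E hl (val hl (natB m)) (val hl (natB n)) := E_natB.2 ⟨m, h1, rfl⟩
    rw [h] at h2
    exact E_irrefl _ h2
  · exact h1
  · exfalso
    have h2 : E hl (val hl (natB n)) (val hl (natB m)) := E_natB.2 ⟨n, h1, rfl⟩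
    rw [h] at h2
    exact E_irrefl _ h2

theorem disj_natB : Disj (natB : ℕ → BSet D) := by
  intro m n hmn
  rw [beq_eq_bot_iff]
  intro lam hl h
  exact hmn (natB_inj h)

/-- The name of `ω`. -/
def omB (D : Type u) [CompleteBooleanAlgebra D] : BSet D := nall (natB : ℕ → BSet D)

theorem isSuc_uniq {x y z : X hl} (h : IsSuc (E hl) y x) (h' : IsSuc (E hl) z x) : y = z :=
  ext_E fun w => (h w).trans (h' w).symm

theorem isEmp_natB_zero : IsEmp (E hl) (val hl (natB 0)) := by
  intro z hz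
  obtain ⟨m, hm, _⟩ := E_natB.1 hz
  omega

theorem isEmp_uniq {x y : X hl} (h : IsEmp (E hl) x) (h' : IsEmp (E hl) y) : x = y :=
  ext_E fun w => ⟨fun hw => (h w hw).elim, fun hw => (h' w hw).elim⟩

theorem isInd_omB : IsInd (E hl) (val hl (omB D)) := by
  refine ⟨⟨_, isEmp_natB_zero, E_nall_c 0⟩, ?_⟩
  intro x hx
  obtain ⟨x, rfl⟩ := exists_name x
  rw [omB, E_nall] at hx
  refine mix' (Q := fun X E v => ∃ y, IsSuc E y (v 0) ∧ E y (v 1)) (v := ps [omB D])
    (by repeat' (with_reducible first | apply IsSuc.fo | apply FO.mem | apply FO.and | apply FO.ex)) ?_ hl hx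
  intro n lam hl
  exact ⟨val hl (natB (n + 1)), isSuc_natB n, E_nall_c (n + 1)⟩

theorem isOmega_omB : IsOmega (E hl) (val hl (omB D)) := by
  refine ⟨isInd_omB, ?_⟩
  intro a ha z hz
  obtain ⟨a, rfl⟩ := exists_name a
  obtain ⟨z, rfl⟩ := exists_name z
  rw [omB, E_nall] at hz
  refine mix (Q := fun X E v => E (v 0) (v 1)) (v := ps [a]) (FO.mem 0 1)
    (tvq (IsInd.fo 0) (ps [a])) ?_ hl ((tvq_iff _ _ hl).2 ha) hz
  intro n lam hl hlam
  rw [tvq_iff _ _ hl] at hlam
  have hind : IsInd (E hl) (val hl a) := hlam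
  change E hl (val hl (natB n)) (val hl a)
  induction n with
  | zero =>
    obtain ⟨⟨e, he, hea⟩, _⟩ := hind
    rw [isEmp_uniq isEmp_natB_zero he]
    exact hea
  | succ n ih =>
    obtain ⟨y, hy, hya⟩ := hind.2 _ ih
    rw [isSuc_uniq (isSuc_natB n) hy]
    exact hya

end nat

end TKF
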