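import Pool.Agent.W_8dd142_h88.Cond

/-!
# The density argument for non-maximality (MP_8dd142_lc)
-/

namespace TKF

open Pool.MP_8dd142_lc.W Node Set

/-- The condition `q` forces that the value at `x` is `A`, a set of `q.1.B` which contains `F` and
belongs to the ultrafilters of the nodes in `Γ`. -/
def nEll (g : Cond → Set ℕ → Set ℕ → Prop) (F : Finset ℕ) (Γ : Finset Node) (q : Cond)
    (x A : Set ℕ) : Prop :=
  g q x A ∧ A ∈ q.1.B ∧ (∀ m ∈ F, m ∈ A) ∧ ∀ ν ∈ Γ, ν ∈ q.1.φ A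

/-- Only countably many sets `A` are possible below `q`. -/
def nSmall (g : Cond → Set ℕ → Set ℕ → Prop) (F : Finset ℕ) (Γ : Finset Node) (q : Cond) : Prop :=
  ∃ 𝒞 : Set (Set ℕ), 𝒞.Countable ∧ ∀ q' ≤ q, ∀ x A, nEll g F Γ q' x A → A ∈ 𝒞

theorem native_inj {α : Type*} {f : ℕ → α} (h : ∀ i j, i < j → f i ≠ f j) :
    Function.Injective f := by
  intro i j he
  rcases lt_trichotomy i j with hij | hij | hij
  · exact absurd he (h i j hij)
  · exact hij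
  · exact absurd he.symm (h j i hij)

section

variable {g : Cond → Set ℕ → Set ℕ → Prop}

theorem nEll_mono (hmono : ∀ p q x A, g p x A → q ≤ p → g q x A) {F : Finset ℕ} {Γ : Finset Node}
    {p q : Cond} {x A : Set ℕ} (h : nEll g F Γ p x A) (hq : q ≤ p) : nEll g F Γ q x A := by
  obtain ⟨h1, h2, h3, h4⟩ := h
  have he : p.1.Ext q.1 := (Cond.le_def p q).1 hq
  refine ⟨hmono p q x A h1 hq, he.B h2, h3, fun ν hν => ?_⟩
  exact (he.φ A h2 ν (p.1.φ_sub h2 (h4 ν hν))).2 (h4 ν hν)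

theorem nSmall_mono {F : Finset ℕ} {Γ : Finset Node} {p q : Cond} (h : nSmall g F Γ p)
    (hq : q ≤ p) : nSmall g F Γ q := by
  obtain ⟨𝒞, hc, h𝒞⟩ := h
  exact ⟨𝒞, hc, fun q' hq' => h𝒞 q' (hq'.trans hq)⟩

theorem exists_union (s : ℕ → Cond) (hs : ∀ n, s (n + 1) ≤ s n) :
    ∃ q : Cond, (∀ n, q ≤ s n) ∧ (∀ ν ∈ q.1.N, ∃ n, ν ∈ (s n).1.N) ∧
      ∀ b ∈ q.1.B, ∃ n, b ∈ (s n).1.B := by
  have hd : Sys.Dir fun n => (s n).1 := by
    intro i j
    exact ⟨max i j, anti_le hs (le_max_left i j), anti_le hs (le_max_right i j)⟩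
  refine ⟨⟨Sys.union (fun n => (s n).1) hd, ?_, ?_⟩, fun n => Sys.ext_union _ hd n, ?_, ?_⟩
  · exact (countable_iUnion fun n => (s n).2.1).mono fun b hb => mem_iUnion.2 hb
  · exact (countable_iUnion fun n => (s n).2.2).mono fun b hb => mem_iUnion.2 hb
  · exact fun ν hν => hν
  · exact fun b hb => hb

theorem native_step1 (p₀ : Cond)
    (hmono : ∀ p q x A, g p x A → q ≤ p → g q x A)
    (hdense : ∀ p ≤ p₀, ∀ x, ∃ q ≤ p, ∃ A, g q x A)
    (hU : ∀ p x A, g p x A → ∃ q ≤ p, A ∈ q.1.B ∧ root ∈ q.1.φ A)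
    (hno : ∀ q ≤ p₀, ∀ X ∈ q.1.B, root ∈ q.1.φ X → {x | ∃ A, X ⊆ A ∧ g q x A}.Finite)
    (p : Cond) (hp : p ≤ p₀) : ¬ nSmall g ∅ {root} p := by
  classical
  rintro ⟨𝒞, hc, h𝒞⟩
  have key : ∀ q ≤ p, ∀ x, ∃ q' ≤ q, ∃ A ∈ 𝒞, g q' x A := by
    intro q hq x
    obtain ⟨q1, hq1, A1, hA1⟩ := hdense q (hq.trans hp) x
    obtain ⟨q2, hq2, hB2, hr2⟩ := hU q1 x A1 hA1
    refine ⟨q2, hq2.trans hq1, A1, h𝒞 q2 (hq2.trans (hq1.trans hq)) x A1 ?_,
      hmono q1 q2 x A1 hA1 hq2⟩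
    refine ⟨hmono q1 q2 x A1 hA1 hq2, hB2, by simp, ?_⟩
    intro ν hν
    rw [Finset.mem_singleton] at hν
    rw [hν]
    exact hr2
  have hne : 𝒞.Nonempty := by
    obtain ⟨_, _, A, hA, _⟩ := key p le_rfl ∅
    exact ⟨A, hA⟩
  obtain ⟨C, hC⟩ := hc.exists_eq_range hne
  have claim : ∀ n, ∀ p' ≤ p, ∃ p'' ≤ p', ∃ T : Finset (Set ℕ), ∀ q ≤ p'', ∀ x,
      g q x (C n) → x ∈ T := by
    intro n p' hp'
    by_contra hcon
    push Not at hcon
    choose f hf xx hxx hxx' using hcon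
    let st : ℕ → {r : Cond // r ≤ p'} × Finset (Set ℕ) := fun k =>
      Nat.rec (⟨p', le_refl _⟩, ∅) (fun _ a => (⟨f a.1.1 a.1.2 a.2, (hf a.1.1 a.1.2 a.2).trans a.1.2⟩,
        insert (xx a.1.1 a.1.2 a.2) a.2)) k
    let xs : ℕ → Set ℕ := fun k => xx (st k).1.1 (st k).1.2 (st k).2
    have hst1 : ∀ k, (st (k + 1)).1.1 = f (st k).1.1 (st k).1.2 (st k).2 := fun k => rfl
    have hst2 : ∀ k, (st (k + 1)).2 = insert (xs k) (st k).2 := fun k => rfl
    have hle : ∀ k, (st (k + 1)).1.1 ≤ (st k).1.1 := by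
      intro k
      rw [hst1]
      exact hf _ _ _
    have hT : Monotone fun k => (st k).2 := by
      refine monotone_nat_of_le_succ fun k => ?_
      rw [hst2]
      exact Finset.subset_insert _ _
    have hgx : ∀ k, g (st (k + 1)).1.1 (xs k) (C n) := by
      intro k
      rw [hst1]
      exact hxx _ _ _
    have hnx : ∀ k, xs k ∉ (st k).2 := fun k => hxx' _ _ _
    have hinj : Function.Injective xs := by
      refine native_inj fun i j hij he => ?_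
      have h1 : xs i ∈ (st (i + 1)).2 := by
        rw [hst2]
        exact Finset.mem_insert_self _ _
      have h2 : xs i ∈ (st j).2 := hT hij h1
      rw [he] at h2
      exact hnx j h2
    obtain ⟨q, hq⟩ := cond_sigma (fun k => (st k).1.1) hle
    have hgq : ∀ k, g q (xs k) (C n) := fun k => hmono _ _ _ _ (hgx k) (hq (k + 1))
    obtain ⟨q', hq', hB', hr'⟩ := hU q (xs 0) (C n) (hgq 0)
    have hq0 : q' ≤ p₀ := hq'.trans ((hq 0).trans (hp'.trans hp))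
    refine infinite_range_of_injective hinj ((hno q' hq0 (C n) hB' hr').subset ?_)
    rintro _ ⟨k, rfl⟩
    exact ⟨C n, subset_rfl, hmono _ _ _ _ (hgq k) hq'⟩
  obtain ⟨q, hq, hq2⟩ := cond_sigma.meet p
    (fun n q => ∃ T : Finset (Set ℕ), ∀ q' ≤ q, ∀ x, g q' x (C n) → x ∈ T)
    (fun n q r ⟨T, hT⟩ hr => ⟨T, fun q' hq' => hT q' (hq'.trans hr)⟩)
    (fun n q hq => claim n q hq)
  choose T hT using hq2
  have hx : ∃ x : Set ℕ, ∀ n, x ∉ T n := by
    by_contra hcon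
    push Not at hcon
    have h1 : (univ : Set (Set ℕ)).Countable := by
      refine (countable_iUnion fun n => (T n).countable_toSet).mono ?_
      intro x _
      obtain ⟨n, hn⟩ := hcon x
      exact mem_iUnion.2 ⟨n, hn⟩
    have h2 : Countable (Set ℕ) := countable_univ_iff.1 h1
    obtain ⟨e, he⟩ := exists_injective_nat (Set ℕ)
    exact Function.cantor_injective e he
  obtain ⟨x, hx⟩ := hx
  obtain ⟨q', hq', A, hA, hgA⟩ := key q hq x
  rw [hC] at hA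
  obtain ⟨n, rfl⟩ := hA
  exact hx n (hT n q' hq' x hgA)

theorem native_step2 (hmono : ∀ p q x A, g p x A → q ≤ p → g q x A) (p : Cond) :
    ∃ p' ≤ p, ∀ (F : Finset ℕ) (Γ : Finset Node), (∀ ν ∈ Γ, ν ∈ p.1.N) →
      nSmall g F Γ p' ∨ ∃ x A, A ∉ p.1.B ∧ nEll g F Γ p' x A := by
  have : Countable {Γ : Finset Node | ∀ ν ∈ Γ, ν ∈ p.1.N} := (countable_finsets p.2.2).to_subtype
  obtain ⟨q, hq, hq2⟩ := cond_sigma.meet' (ι := Finset ℕ × {Γ : Finset Node | ∀ ν ∈ Γ, ν ∈ p.1.N}) p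
    (fun i q => nSmall g i.1 i.2.1 q ∨ ∃ x A, A ∉ p.1.B ∧ nEll g i.1 i.2.1 q x A)
    (by
      rintro i q r (h | ⟨x, A, h1, h2⟩) hr
      · exact Or.inl (nSmall_mono h hr)
      · exact Or.inr ⟨x, A, h1, nEll_mono hmono h2 hr⟩)
    (by
      intro i q hq
      by_cases h : nSmall g i.1 i.2.1 q
      · exact ⟨q, le_rfl, Or.inl h⟩
      · have h' : ∃ q' ≤ q, ∃ x A, nEll g i.1 i.2.1 q' x A ∧ A ∉ p.1.B := by
          by_contra hcon
          push Not at hcon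
          exact h ⟨p.1.B, p.2.1, hcon⟩
        obtain ⟨q', hq', x, A, h1, h2⟩ := h'
        exact ⟨q', hq', Or.inr ⟨x, A, h2, h1⟩⟩)
  exact ⟨q, hq, fun F Γ hΓ => hq2 (F, ⟨Γ, hΓ⟩)⟩

/-- The pigeonhole principle for smallness. -/
theorem native_pigeon {κ : Type*} {F : Finset ℕ} {Γ : Finset Node} {q : Cond}
    (h : ¬ nSmall g F Γ q) {K : Set κ} (hK : K.Countable) (F' : κ → Finset ℕ)
    (Γ' : κ → Finset Node)
    (hcov : ∀ q' ≤ q, ∀ x A, nEll g F Γ q' x A → ∃ k ∈ K, nEll g (F' k) (Γ' k) q' x A) :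
    ∃ k ∈ K, ¬ nSmall g (F' k) (Γ' k) q := by
  classical
  by_contra hcon
  push Not at hcon
  apply h
  choose! 𝒞 hc h𝒞 using hcon
  refine ⟨⋃ k ∈ K, 𝒞 k, hK.biUnion hc, ?_⟩
  intro q' hq' x A hA
  obtain ⟨k, hk, hk'⟩ := hcov q' hq' x A hA
  exact mem_biUnion hk (h𝒞 k hk q' hq' x A hk')

end

/-- `g p x A` means: the condition `p` forces that the value at the real `x` of a (name for a) map
from the reals to the root ultrafilter is `A`. Then some condition `q ≤ p₀` and some `X` in the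
root ultrafilter of `q` satisfy: `q` forces `X ⊆ g(x)` for infinitely many reals `x`.

PROOF.
STEP 0. We may assume (replace the conclusion by its negation, `hno`): for no `q ≤ p₀` and `X ∈ q.1.B`,
`root ∈ q.1.φ X`, the set `{x | ∃ A, X ⊆ A ∧ g q x A}` is infinite. Put
`ℓ F Γ q x A := g q x A ∧ A ∈ q.1.B ∧ (∀ m ∈ F, m ∈ A) ∧ ∀ ν ∈ Γ, ν ∈ q.1.φ A`
(`F : Finset ℕ`, `Γ : Finset Node`), and
`small F Γ q := ∃ 𝒞 : Set (Set ℕ), 𝒞.Countable ∧ ∀ q' ≤ q, ∀ x A, ℓ F Γ q' x A → A ∈ 𝒞`.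
Both are inherited by stronger conditions, as long as `Γ ⊆ q.1.N` for `ℓ` (use `Ext.φ`).

STEP 1. `¬ small ∅ {root} p` for all `p ≤ p₀`. Suppose `𝒞 = range C` (if `𝒞` is empty, use `hdense` and
`hU` directly). Claim: for each `n` and each `p' ≤ p` there are `p'' ≤ p'` and a finite `T ⊆ Set ℕ` such
that `g q x (C n)` for no `q ≤ p''`, `x ∉ T`. Otherwise choose recursively `p' ≥ q₀ ≥ q₁ ≥ …` and
distinct `x₀, x₁, …` with `g qₖ xₖ (C n)`; a lower bound `q` (`cond_sigma`) has `g q xₖ (C n)` for all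
`k`; by `hU` some `q' ≤ q` has `C n ∈ q'.1.B` and `root ∈ q'.1.φ (C n)`: contradiction to `hno` with
`X = C n`. By `cond_sigma.meet` (the property is inherited by stronger conditions) some `q ≤ p` and
finite sets `T n` work for all `n`. Take a real `x` outside the countable set `⋃ T n` (the reals are
uncountable, e.g. `Cardinal` or Cantor's theorem). By `hdense`, `hU` there are `q' ≤ q` and `A` with
`g q' x A`, `A ∈ q'.1.B`, `root ∈ q'.1.φ A`. So `A ∈ 𝒞` by smallness, say `A = C n`; then `x ∈ T n`: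
contradiction.

STEP 2. Given `p ≤ p₀` there is `p' ≤ p` such that for all `F` and all `Γ` with `Γ ⊆ p.1.N`: either
`small F Γ p'` or `∃ x A, A ∉ p.1.B ∧ ℓ F Γ p' x A`. (Countably many pairs `(F, Γ)`, see
`countable_finsets` in `Pool.Agent.W_MP_8dd142_lc.Final`; use `cond_sigma.meet'`; density: if
`small F Γ q'` for some `q' ≤ q` take it, otherwise `¬ small F Γ q` and `𝒞 = p.1.B` give `q' ≤ q` and
`x, A ∉ p.1.B` with `ℓ F Γ q' x A`.) Iterate: `p₀ = s 0 ≥ s 1 ≥ …`, `s (n+1)` obtained from `s n`; let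
`sω` be a lower bound of the form of the union of the `s n`, that is, such that every element of
`sω.1.N` is in some `(s n).1.N` and every element of `sω.1.B` in some `(s n).1.B` (see the proof of
`cond_sigma`; state this as a lemma `exists_union`).

STEP 3. Let `𝒢 := {A | A ∈ sω.1.B ∧ ∃ x, g sω x A}` and
`𝒫 := {p | (∀ ν ∈ p.2, ν ∈ sω.1.N) ∧ ¬ small p.1 p.2 sω}`. Apply `Sys.fusion` (file
`Pool.Agent.W_MP_8dd142_lc.Fusion`) to `sω.1`, `𝒫`, `𝒢` exactly as in `Sys.nontop_ext`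
(file `NonTop`). (∅, {root}) ∈ 𝒫 by step 1.
(E1) `p ∈ 𝒫`, `ν ∈ p.2`, `b ∈ sω.1.B`, `ν ∈ φ b`, `l ∈ T`, `lev ν ≤ l`, `R` finite: if every `μ` in the
countable set `K = {μ ∈ sω.1.N : μ ∉ R, lev μ = l, μ ∈ φ b}` had `small p.1 (insert μ p.2) sω`, take the
union `𝒞` of the countable sets; as `¬ small p.1 p.2 sω` there are `q ≤ sω`, `x`, `A ∉ 𝒞` with
`ℓ p.1 p.2 q x A`. Then `b ∩ A ∈ q.1.B`, `ν ∈ q.1.φ (b ∩ A)`, so there is `μ ∉ R` of level `l` in
`q.1.φ (b ∩ A)` (`clT`), and `μ ∈ sω.1.N` by `Ext.fr`. So `μ ∈ K` and `ℓ p.1 (insert μ p.2) q x A`: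
contradiction. (E2) is the same with a natural number `m ∈ b ∩ A`, `k < m` (`Sys.inf`).
(E3) if `p ∈ 𝒫` then `{A ∈ 𝒢 : p.1 ⊆ A, p.2 ⊆ φ A}` is infinite: `p.2 ⊆ (s n₀).1.N` for some `n₀`; for
`n ≥ n₀` the first alternative of step 2 for `s (n+1)` fails (smallness would pass to `sω`), so there
are `x`, `A ∉ (s n).1.B` with `ℓ p.1 p.2 (s (n+1)) x A`; `A ∈ (s (n+1)).1.B`, so we get infinitely
many `A`, and `ℓ` passes to `sω`.
The fusion gives `S' ⊇ sω.1` countable and `X ∈ S'.B`, `root ∈ S'.φ X`, with `X ⊆ A` for infinitely many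
`A ∈ 𝒢`. The condition `q = S'` has `g q x A` for these `A` (`hmono`), with different `x` for different
`A` by `huniq`: contradiction to `hno`. -/
theorem native_nontop (g : Cond → Set ℕ → Set ℕ → Prop) (p₀ : Cond)
    (hmono : ∀ p q x A, g p x A → q ≤ p → g q x A)
    (hdense : ∀ p ≤ p₀, ∀ x, ∃ q ≤ p, ∃ A, g q x A)
    (huniq : ∀ p x A A', g p x A → g p x A' → A = A')
    (hU : ∀ p x A, g p x A → ∃ q ≤ p, A ∈ q.1.B ∧ root ∈ q.1.φ A) :
    ∃ q ≤ p₀, ∃ X ∈ q.1.B, root ∈ q.1.φ X ∧ {x | ∃ A, X ⊆ A ∧ g q x A}.Infinite := by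
  by_contra hcon
  have hno : ∀ q ≤ p₀, ∀ X ∈ q.1.B, root ∈ q.1.φ X → {x | ∃ A, X ⊆ A ∧ g q x A}.Finite := by
    intro q hq X hX hr
    by_contra hinf
    exact hcon ⟨q, hq, X, hX, hr, hinf⟩
  have hst1 := native_step1 p₀ hmono hdense hU hno
  choose nx hnx hnx' using fun p : Cond => native_step2 hmono p
  let s : ℕ → Cond := fun n => Nat.rec p₀ (fun _ q => nx q) n
  have hs0 : s 0 = p₀ := rfl
  have hsn : ∀ n, s (n + 1) = nx (s n) := fun n => rfl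
  have hs : ∀ n, s (n + 1) ≤ s n := by
    intro n
    rw [hsn]
    exact hnx _
  obtain ⟨sω, hω, hωN, hωB⟩ := exists_union s hs
  have hω0 : sω ≤ p₀ := hω 0
  have hNc : sω.1.N.Countable := sω.2.2
  have hP0 : ¬ nSmall g ∅ {root} sω := hst1 sω hω0
  have hE3 : ∀ p : Finset ℕ × Finset Node, (∀ ν ∈ p.2, ν ∈ sω.1.N) → ¬ nSmall g p.1 p.2 sω →
      {A | (A ∈ sω.1.B ∧ ∃ x, g sω x A) ∧ (∀ m ∈ p.1, m ∈ A) ∧ ∀ ν ∈ p.2, ν ∈ sω.1.φ A}.Infinite := by
    rintro ⟨F, Γ⟩ hΓ hns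
    have hfin : ∀ Γ : Finset Node, (∀ ν ∈ Γ, ν ∈ sω.1.N) → ∃ n, ∀ ν ∈ Γ, ν ∈ (s n).1.N := by
      intro Γ
      induction Γ using Finset.induction_on with
      | empty => exact fun _ => ⟨0, by simp⟩
      | insert ν Γ _ ih =>
        intro hΓ
        obtain ⟨n, h1⟩ := ih (fun μ hμ => hΓ μ (Finset.mem_insert_of_mem hμ))
        obtain ⟨n', h2⟩ := hωN ν (hΓ ν (Finset.mem_insert_self _ _))
        refine ⟨max n n', ?_⟩
        intro μ hμ
        rcases Finset.mem_insert.1 hμ with rfl | hμ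
        · exact ((Cond.le_def _ _).1 (anti_le hs (le_max_right n n'))).N h2
        · exact ((Cond.le_def _ _).1 (anti_le hs (le_max_left n n'))).N (h1 μ hμ)
    obtain ⟨n₀, hn₀⟩ := hfin Γ hΓ
    have hex : ∀ k, ∃ x A, A ∉ (s (n₀ + k)).1.B ∧ nEll g F Γ (s (n₀ + k + 1)) x A := by
      intro k
      have h1 : ∀ ν ∈ Γ, ν ∈ (s (n₀ + k)).1.N := fun ν hν =>
        ((Cond.le_def _ _).1 (anti_le hs (Nat.le_add_right n₀ k))).N (hn₀ ν hν)
      rcases hnx' (s (n₀ + k)) F Γ h1 with h2 | h2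
      · exact absurd (nSmall_mono h2 (hω (n₀ + k + 1))) hns
      · exact h2
    choose xs As hA hell using hex
    refine infinite_of_injective_forall_mem (f := As) ?_ ?_
    · refine native_inj fun i j hij he => ?_
      apply hA j
      rw [← he]
      exact ((Cond.le_def _ _).1 (anti_le hs (by omega : n₀ + i + 1 ≤ n₀ + j))).B (hell i).2.1
    · intro k
      obtain ⟨h1, h2, h3, h4⟩ := nEll_mono hmono (hell k) (hω (n₀ + k + 1))
      exact ⟨⟨h2, xs k, h1⟩, h3, h4⟩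
  obtain ⟨S', h1, h2, _, X, hX, hr, _, hinf⟩ := sω.1.fusion sω.2
    {p | (∀ ν ∈ p.2, ν ∈ sω.1.N) ∧ ¬ nSmall g p.1 p.2 sω} {A | A ∈ sω.1.B ∧ ∃ x, g sω x A}
    (fun A hA => hA.1) ⟨by simpa using sω.1.root_mem, hP0⟩ (fun p hp => hp.1)
    (by
      -- E1
      rintro p ⟨hp1, hp2⟩ ν hν b hb hνb l hl hle R
      obtain ⟨μ, ⟨hμN, hμR, hμl, hμb⟩, hunc⟩ := native_pigeon hp2
        (K := {μ | μ ∈ sω.1.N ∧ μ ∉ R ∧ lev μ = l ∧ μ ∈ sω.1.φ b}) (hNc.mono fun μ h => h.1)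
        (fun _ => p.1) (fun μ => insert μ p.2) (by
          rintro q hq x A ⟨hA1, hA2, hA3, hA4⟩
          have hext : sω.1.Ext q.1 := (Cond.le_def _ _).1 hq
          have hbf := hext.B hb
          have h3 : ν ∈ q.1.φ (b ∩ A) := by
            rw [q.1.mem_φ_inter hbf hA2]
            exact ⟨(hext.φ b hb ν (hp1 ν hν)).2 hνb, hA4 ν hν⟩
          obtain ⟨μ, ⟨h4, h5⟩, h6⟩ := (q.1.clT (q.1.inter_mem b hbf _ hA2) h3
            (hext.T_sub hl) hle).exists_notMem_finset R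
          rw [q.1.mem_φ_inter hbf hA2] at h4
          have hμN : μ ∈ sω.1.N := hext.fr μ (q.1.φ_sub hbf h4.1) (by rw [h5]; exact hl)
          refine ⟨μ, ⟨hμN, h6, h5, (hext.φ b hb μ hμN).1 h4.1⟩, hA1, hA2, hA3, ?_⟩
          intro κ hκ
          rcases Finset.mem_insert.1 hκ with rfl | hκ
          · exact h4.2
          · exact hA4 κ hκ)
      refine ⟨μ, hμR, hμl, hμb, ?_, hunc⟩
      intro κ hκ
      rcases Finset.mem_insert.1 hκ with rfl | hκ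
      · exact hμN
      · exact hp1 κ hκ)
    (by
      -- E2
      rintro p ⟨hp1, hp2⟩ y hy b hb hyb k
      obtain ⟨m, ⟨hmk, hmb⟩, hunc⟩ := native_pigeon hp2
        (K := {m : ℕ | k < m ∧ m ∈ b}) (Set.to_countable _)
        (fun m => insert m p.1) (fun _ => p.2) (by
          rintro q hq x A ⟨hA1, hA2, hA3, hA4⟩
          have hext : sω.1.Ext q.1 := (Cond.le_def _ _).1 hq
          have hbf := hext.B hb
          have h3 : pt y ∈ q.1.φ (b ∩ A) := by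
            rw [q.1.mem_φ_inter hbf hA2]
            exact ⟨(hext.φ b hb _ (sω.1.pt_mem y)).2 hyb, hA4 _ hy⟩
          obtain ⟨m, hm1, hm2⟩ := (q.1.inf _ (q.1.inter_mem b hbf _ hA2) _ h3).exists_gt k
          refine ⟨m, ⟨hm2, hm1.1⟩, hA1, hA2, ?_, hA4⟩
          intro κ hκ
          rcases Finset.mem_insert.1 hκ with rfl | hκ
          · exact hm1.2
          · exact hA3 κ hκ)
      exact ⟨m, hmk, hmb, hp1, hunc⟩)
    (fun _ p hp => hE3 p hp.1 hp.2)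
  have hne : {A | A ∈ sω.1.B ∧ ∃ x, g sω x A}.Nonempty := by
    obtain ⟨A, hA⟩ := (hE3 (∅, {root}) (by simpa using sω.1.root_mem) hP0).nonempty
    exact ⟨A, hA.1⟩
  have hinf' := hinf hne
  let q : Cond := ⟨S', h2⟩
  have hq : q ≤ sω := h1
  have hgx : ∀ A, ∃ x, A ∈ {A | A ∈ {A | A ∈ sω.1.B ∧ ∃ x, g sω x A} ∧ X ⊆ A} → g q x A := by
    intro A
    by_cases hA : A ∈ {A | A ∈ {A | A ∈ sω.1.B ∧ ∃ x, g sω x A} ∧ X ⊆ A}
    · obtain ⟨⟨_, x, hx⟩, _⟩ := hA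
      exact ⟨x, fun _ => hmono _ _ _ _ hx hq⟩
    · exact ⟨∅, fun h => absurd h hA⟩
  choose xf hxf using hgx
  refine infinite_of_injOn_mapsTo (f := xf) ?_ ?_ hinf' (hno q (hq.trans hω0) X hX hr)
  · intro A hA A' hA' he
    have h3 := hxf A hA
    have h4 := hxf A' hA'
    rw [he] at h3
    exact huniq _ _ _ _ h3 h4
  · intro A hA
    exact ⟨A, hA.2, hxf A hA⟩

end TKF
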