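import Pool.Agent.W_8dd142_h88.Maps

/-!
# Ultrafilters given by truth values (MP_8dd142_lc)
-/

universe u

namespace TKF

open IM IM.BSet BVM

section nchk

variable {D : Type u} [CompleteBooleanAlgebra D] {lam : D → Prop} {hl : IsUF lam}
variable {ι : Type} {c : ι → BSet D}

theorem E_nchk_inter {A B : Set ι} {z : X hl} (hc : Disj c) :
    E hl z (val hl (nchk c (A ∩ B))) ↔
      E hl z (val hl (nchk c A)) ∧ E hl z (val hl (nchk c B)) := by
  constructor
  · intro h
    exact ⟨(nchk_sub_iff hc).2 Set.inter_subset_left z h,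
      (nchk_sub_iff hc).2 Set.inter_subset_right z h⟩
  · rintro ⟨h1, h2⟩
    have h3 := nchk_sub_nall z h1
    obtain ⟨z, rfl⟩ := exists_name z
    rw [E_nall] at h3
    refine mix' (Q := fun _ E v => E (v 0) (v 1) → E (v 0) (v 2) → E (v 0) (v 3))
      (v := ps [nchk c A, nchk c B, nchk c (A ∩ B)])
      ((FO.mem 0 1).imp ((FO.mem 0 2).imp (FO.mem 0 3))) ?_ hl h3 h1 h2
    intro i lam hl hA hB
    exact (E_nchk_c hc).2 ⟨(E_nchk_c hc).1 hA, (E_nchk_c hc).1 hB⟩

theorem E_nchk_compl {A : Set ι} {z : X hl} (hc : Disj c) :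
    E hl z (val hl (nchk c Aᶜ)) ↔
      E hl z (val hl (nall c)) ∧ ¬ E hl z (val hl (nchk c A)) := by
  constructor
  · intro h
    refine ⟨nchk_sub_nall z h, fun h' => ?_⟩
    have h1 : E hl z (val hl (nchk c (A ∩ Aᶜ))) := (E_nchk_inter hc).2 ⟨h', h⟩
    rw [Set.inter_compl_self, ← Finset.coe_empty, E_nchk_finset] at h1
    obtain ⟨i, hi, _⟩ := h1
    exact absurd hi (Finset.notMem_empty i)
  · rintro ⟨h3, h2⟩
    obtain ⟨z, rfl⟩ := exists_name z
    rw [E_nall] at h3
    refine mix' (Q := fun _ E v => ¬ E (v 0) (v 1) → E (v 0) (v 2))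
      (v := ps [nchk c A, nchk c Aᶜ])
      ((FO.mem 0 1).not.imp (FO.mem 0 2)) ?_ hl h3 h2
    intro i lam hl hA
    refine (E_nchk_c hc).2 fun hi => hA ?_
    exact (E_nchk_c hc).2 hi

theorem nall_eq_nchk : (nall c : BSet D) = nchk c Set.univ := by
  simp [nall, nchk]

end nchk

section real

variable {P : Type u} [Preorder P] (hP : SigmaClosed P)

include hP

/-- A first-order property holds for all reals if it holds for the standard ones. -/
theorem real_all {Q : ∀ X : Type (u + 1), (X → X → Prop) → (ℕ → X) → Prop} (hQ : FO Q)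
    {v : ℕ → BSet (RO P)} (a : RO P)
    (h : ∀ (A : Set ℕ) (lam : RO P → Prop) (hl : IsUF lam), lam a →
      Q (X hl) (E hl) (fun n => val hl (cons (rl A) v n)))
    {lam : RO P → Prop} (hl : IsUF lam) (ha : lam a) {x : X hl}
    (hx : Sub (E hl) x (val hl (omB _))) : Q (X hl) (E hl) (cons x fun n => val hl (v n)) := by
  obtain ⟨x, rfl⟩ := exists_name x
  rw [← comp_cons (val hl)]
  exact mix hQ a h hl ha (real_mix hP hx)

theorem real_all' {Q : ∀ X : Type (u + 1), (X → X → Prop) → (ℕ → X) → Prop} (hQ : FO Q)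
    {v : ℕ → BSet (RO P)}
    (h : ∀ (A : Set ℕ) (lam : RO P → Prop) (hl : IsUF lam),
      Q (X hl) (E hl) (fun n => val hl (cons (rl A) v n)))
    {lam : RO P → Prop} (hl : IsUF lam) {x : X hl}
    (hx : Sub (E hl) x (val hl (omB _))) : Q (X hl) (E hl) (cons x fun n => val hl (v n)) :=
  real_all hP hQ ⊤ (fun A lam hl _ => h A lam hl) hl hl.top hx

/-- An ultrafilter on `ω` given by truth values. -/
theorem isUltra_nsub (u : Set ℕ → RO P) (h1 : u Set.univ = ⊤) (h2 : u ∅ = ⊥)
    (h3 : ∀ A B, A ⊆ B → u A ≤ u B) (h4 : ∀ A B, u A ⊓ u B ≤ u (A ∩ B))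
    (h5 : ∀ A, u A ⊔ u Aᶜ = ⊤) {lam : RO P → Prop} (hl : IsUF lam) :
    IsUltra (E hl) (val hl (omB _)) (val hl (nsub rl u)) := by
  have hsub : ∀ (lam : RO P → Prop) (hl : IsUF lam) (x : X hl),
      E hl x (val hl (nsub rl u)) → Sub (E hl) x (val hl (omB _)) :=
    fun lam hl x hx => (E_nall_rl hP).1 (nsub_sub_nall x hx)
  have hmem : ∀ (lam : RO P → Prop) (hl : IsUF lam) (A : Set ℕ),
      E hl (val hl (rl A)) (val hl (nsub rl u)) ↔ lam (u A) := fun lam hl A => E_nsub_c disj_rl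
  refine ⟨hsub lam hl, ?_, ?_, ?_, ?_, ?_⟩
  · have : (omB _ : BSet (RO P)) = rl Set.univ := nall_eq_nchk
    rw [this, hmem, h1]
    exact hl.top
  · intro x hx hxU
    have : x = val hl (rl ∅) := by
      refine isEmp_uniq hx ?_
      intro z hz
      rw [rl, ← Finset.coe_empty, E_nchk_finset] at hz
      obtain ⟨i, hi, _⟩ := hz
      exact absurd hi (Finset.notMem_empty i)
    rw [this, hmem, h2] at hxU
    exact hl.bot hxU
  · intro x y hx hxy hy
    refine real_all' hP (Q := fun _ E v => ∀ y, E (v 0) (v 1) → Sub E (v 0) y → Sub E y (v 2) →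
      E y (v 1)) (v := ps [nsub rl u, omB _])
      (by repeat' (with_reducible first | apply Sub.fo | apply FO.mem | apply FO.imp | apply FO.all))
      ?_ hl (hsub lam hl x hx) y hx hxy hy
    intro A lam hl y hx hxy hy
    refine real_all' hP (Q := fun _ E v => Sub E (v 1) (v 0) → E (v 1) (v 2) → E (v 0) (v 2))
      (v := ps [rl A, nsub rl u])
      (by repeat' (with_reducible first | apply Sub.fo | apply FO.mem | apply FO.imp | apply FO.all))
      ?_ hl hy hxy hx
    intro B lam hl hAB hA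
    refine (hmem lam hl B).2 (hl.mono (h3 A B ?_) ((hmem lam hl A).1 hA))
    exact (nchk_sub_iff disj_natB).1 hAB
  · intro x y z hx hy hz
    refine real_all' hP (Q := fun _ E v => ∀ y, E (v 0) (v 1) → E y (v 1) → Sub E y (v 2) →
      ∀ z, (∀ n, E n z ↔ E n (v 0) ∧ E n y) → E z (v 1)) (v := ps [nsub rl u, omB _])
      (by repeat' (with_reducible first | apply Sub.fo | apply FO.mem | apply FO.and | apply FO.iff | apply FO.imp | apply FO.all))
      ?_ hl (hsub lam hl x hx) y hx hy (hsub lam hl y hy) z hz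
    intro A lam hl y hx hy hyw z hz
    refine real_all' hP (Q := fun _ E v => E (v 1) (v 2) → E (v 0) (v 2) → ∀ z,
      (∀ n, E n z ↔ E n (v 1) ∧ E n (v 0)) → E z (v 2))
      (v := ps [rl A, nsub rl u])
      (by repeat' (with_reducible first | apply Sub.fo | apply FO.mem | apply FO.and | apply FO.iff | apply FO.imp | apply FO.all))
      ?_ hl hyw hx hy z hz
    intro B lam hl hA hB z hz
    have h6 : z = val hl (rl (A ∩ B)) := ext_E fun n => by
      rw [hz n, rl, E_nchk_inter disj_natB]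
      exact Iff.rfl
    rw [h6]
    exact (hmem lam hl _).2 (hl.mono (h4 A B) (hl.inf ((hmem lam hl A).1 hA)
      ((hmem lam hl B).1 hB)))
  · intro x y hx hy
    refine real_all' hP (Q := fun _ E v => ∀ y, (∀ n, E n y ↔ E n (v 2) ∧ ¬ E n (v 0)) →
      E (v 0) (v 1) ∨ E y (v 1)) (v := ps [nsub rl u, omB _])
      (by repeat' (with_reducible first | apply Sub.fo | apply FO.mem | apply FO.and | apply FO.or | apply FO.not | apply FO.iff | apply FO.imp | apply FO.all))
      ?_ hl hx y hy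
    intro A lam hl y hy
    have h6 : y = val hl (rl Aᶜ) := ext_E fun n => by
      rw [hy n, rl, E_nchk_compl disj_natB]
      exact Iff.rfl
    rw [h6]
    have h7 : lam (u A ⊔ u Aᶜ) := by
      rw [h5]
      exact hl.top
    rcases hl.sup_iff.1 h7 with h8 | h8
    · exact Or.inl ((hmem lam hl A).2 h8)
    · exact Or.inr ((hmem lam hl Aᶜ).2 h8)

end real

/-- The truth value of a property of conditions which is inherited by stronger conditions. -/
def tvp {P : Type u} [Preorder P] (φ : P → Prop) : RO P := RO.cl {p | φ p}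

section tvp

variable {P : Type u} [Preorder P] {φ : P → Prop}

theorem gen_le_tvp_iff (hφ : ∀ p q, φ p → q ≤ p → φ q) {p : P} :
    gen p ≤ tvp φ ↔ ∀ q ≤ p, ∃ r ≤ q, φ r := by
  rw [gen_le_iff, tvp, RO.mem_cl]
  refine forall_congr' fun q => imp_congr_right fun _ => ?_
  constructor
  · rintro ⟨r, hr, t, ht, hrt⟩
    exact ⟨r, hr, hφ t r ht hrt⟩
  · rintro ⟨r, hr, h⟩
    exact ⟨r, hr, r, h, le_refl r⟩

theorem gen_le_tvp {p : P} (h : φ p) : gen p ≤ tvp φ := by
  rw [gen_le_iff, tvp, RO.mem_cl]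
  exact fun q hq => ⟨q, le_refl q, p, h, hq⟩

theorem le_of_gen {a b : RO P} (h : ∀ p : P, gen p ≤ a → gen p ≤ b) : a ≤ b := fun p hp =>
  gen_le_iff.1 (h p (gen_le_iff.2 hp))

theorem le_of_gen_dense {a b : RO P} (h : ∀ p : P, gen p ≤ a → ∃ q ≤ p, gen q ≤ b) : a ≤ b := by
  intro p hp
  refine RO.mem_of_dense fun q hq => ?_
  obtain ⟨r, hr, hr'⟩ := h q (gen_le_iff.2 (RO.mem_lower hp hq))
  exact ⟨r, hr, gen_le_iff.1 hr'⟩

/-- From a truth value and a condition in the ultrafilter to a stronger condition. -/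
theorem exists_of_tvp (hφ : ∀ p q, φ p → q ≤ p → φ q) {p : P} {lam : RO P → Prop}
    (hl : IsUF lam) (hp : lam (gen p)) (h : lam (tvp φ)) : ∃ q ≤ p, φ q := by
  obtain ⟨q, hq⟩ := exists_gen (a := gen p ⊓ tvp φ) (by
    intro h0
    apply hl.bot
    rw [← h0]
    exact hl.inf hp h)
  obtain ⟨r, hr, t, rfl, hrt⟩ := gen_le_iff.1 (hq.trans inf_le_left) q (le_refl q)
  obtain ⟨s, hs, hφs⟩ := (gen_le_tvp_iff hφ).1 (hq.trans inf_le_right) r hr
  exact ⟨s, hs.trans hrt, hφs⟩

end tvp

end TKF
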