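import Pool.Agent.W_8dd142_h88.Gen
import Pool.Agent.W_8dd142_h88.Native

/-!
# The generic ultrafilter is not of maximum Tukey type (MP_8dd142_lc)
-/

namespace TKF

open IM IM.BSet BVM
open Pool.MP_8dd142_lc.W Node

/-- The name of the finite set `{x}`, `x` a real. -/
noncomputable def sg {D : Type*} [CompleteBooleanAlgebra D] (x : Set ℕ) : BSet D :=
  nchk rl (({x} : Finset (Set ℕ)) : Set (Set ℕ))

theorem disj_sg {D : Type*} [CompleteBooleanAlgebra D] : Disj (sg : Set ℕ → BSet D) := by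
  intro x y hxy
  refine disj_nchk disj_rl _ _ ?_
  intro h
  apply hxy
  have h1 : ({x} : Finset (Set ℕ)) = {y} := Finset.coe_injective h
  exact Finset.singleton_injective h1

theorem not_tukeyTop {lam : RO Cond → Prop} (hl : IsUF lam) :
    ¬ IsTukeyTop (E hl) (val hl (omB _)) (val hl nU) := by
  classical
  rintro ⟨d, g, hdg⟩
  have htop : TopMap (E hl) (val hl (omB _)) (val hl nU) d g := hdg
  clear hdg
  obtain ⟨d, rfl⟩ := exists_name d
  obtain ⟨g, rfl⟩ := exists_name g
  obtain ⟨p₀, hp₀⟩ := Fc.exists (Q := fun _ E v => TopMap E (v 0) (v 1) (v 2) (v 3))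
    (v := ps [omB _, nU, d, g]) (TopMap.fo 0 1 2 3) hl htop
  clear htop hl lam
  have hT : ∀ (lam : RO Cond → Prop) (hl : IsUF lam), lam (gen p₀) →
      TopMap (E hl) (val hl (omB _)) (val hl nU) (val hl d) (val hl g) := hp₀
  have hdeq : ∀ (lam : RO Cond → Prop) (hl : IsUF lam), lam (gen p₀) →
      val hl d = val hl (nfin rl) := fun lam hl h =>
    isFinFamilies_uniq (hT lam hl h).1 (isFinFamilies_nfin cond_sigma)
  -- the native relation
  let G : Cond → Set ℕ → Set ℕ → Prop := fun p x A => p ≤ p₀ ∧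
    Fc p (fun _ E v => App E (v 0) (v 1) (v 2)) (ps [g, sg x, rl A])
  have hG : ∀ p x A, G p x A → ∀ (lam : RO Cond → Prop) (hl : IsUF lam), lam (gen p) →
      App (E hl) (val hl g) (val hl (sg x)) (val hl (rl A)) := fun p x A h => h.2
  obtain ⟨q, hq, X₀, hX, hrX, hinf⟩ := native_nontop G p₀
    (fun p q x A h hq => ⟨hq.trans h.1, h.2.mono hq⟩)
    (by
      intro p hp x
      obtain ⟨q, hq, A, hA⟩ := decide_value (p := p) (κ := Set ℕ) (c' := rl) (f := g) (d := d)
        (e := nU) (x := sg x)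
        (fun lam hl h => (hT lam hl (hl.mono (gen_mono hp) h)).2.1)
        (fun lam hl h => by
          change E hl (val hl (sg x)) (val hl d)
          rw [hdeq lam hl (hl.mono (gen_mono hp) h)]
          exact E_nfin_c _)
        (fun lam hl h => nsub_sub_nall)
      exact ⟨q, hq, A, hq.trans hp, hA⟩)
    (by
      intro p x A A' h h'
      obtain ⟨lam, hl, hlam⟩ := exists_uf p
      have hm := (hT lam hl (hl.mono (gen_mono h.1) hlam)).2.1
      exact nchk_inj disj_natB (hm.uniq (hG _ _ _ h lam hl hlam) (hG _ _ _ h' lam hl hlam)))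
    (by
      intro p x A h
      have h1 : gen p ≤ uU A := by
        rw [le_iff_uf]
        intro lam hl hlam
        have hm := (hT lam hl (hl.mono (gen_mono h.1) hlam)).2.1
        exact (E_U hl).1 (hm.mem (hG _ _ _ h lam hl hlam)).2
      obtain ⟨r, hr, hr'⟩ := gen_le_uU.1 h1 p (le_refl p)
      exact ⟨r, hr, hr'.1, hr'.2⟩)
  -- the set of the singletons
  let 𝒳 : Set (Set ℕ) := {x | ∃ A, X₀ ⊆ A ∧ G q x A}
  have hXU : InU X₀ q := ⟨hX, hrX⟩
  obtain ⟨lam, hl, hlam⟩ := exists_uf q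
  have hTop := hT lam hl (hl.mono (gen_mono hq) hlam)
  have hsub : Sub (E hl) (val hl (nchk sg 𝒳)) (val hl d) := by
    intro s hs
    rw [hdeq lam hl (hl.mono (gen_mono hq) hlam)]
    have h1 := nchk_sub_nall s hs
    obtain ⟨s, rfl⟩ := exists_name s
    rw [E_nall] at h1
    exact mix' (Q := fun _ E v => E (v 0) (v 1)) (v := ps [nfin rl]) (FO.mem 0 1)
      (fun x lam hl => E_nfin_c _) hl h1
  obtain ⟨b, hb, hbs⟩ := hTop.2.2 (val hl (nchk sg 𝒳)) hsub
    ⟨val hl (rl X₀), (E_U hl).2 (hl.mono (gen_le_tvp hXU) hlam), by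
      intro s t hs hst
      have h1 := nchk_sub_nall s hs
      obtain ⟨s, rfl⟩ := exists_name s
      rw [E_nall] at h1
      refine mix (Q := fun _ E v => E (v 0) (v 1) → ∀ t, App E (v 2) (v 0) t → Sub E (v 3) t)
        (v := ps [nchk sg 𝒳, g, rl X₀])
        (by repeat' (with_reducible first | apply Sub.fo | apply App.fo | apply FO.mem | apply FO.imp | apply FO.all))
        (gen q) ?_ hl hlam h1 hs t hst
      intro x lam hl hlam hx t ht
      obtain ⟨A, hXA, hA⟩ : x ∈ 𝒳 := (E_nchk_c disj_sg).1 hx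
      have hm := (hT lam hl (hl.mono (gen_mono hq) hlam)).2.1
      have h2 : t = val hl (rl A) := hm.uniq ht (hG _ _ _ hA lam hl hlam)
      rw [h2]
      exact (nchk_sub_iff disj_natB).2 hXA⟩
  rw [hdeq lam hl (hl.mono (gen_mono hq) hlam)] at hb
  obtain ⟨b, rfl⟩ := exists_name b
  rw [E_nfin] at hb
  refine mix' (Q := fun _ E v => ¬ ∀ s, E s (v 1) → Sub E s (v 0)) (v := ps [nchk sg 𝒳])
    (by repeat' (with_reducible first | apply Sub.fo | apply FO.mem | apply FO.not | apply FO.imp | apply FO.all))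
    ?_ hl hb hbs
  intro T lam hl h
  obtain ⟨x, hx, hxT⟩ := hinf.exists_notMem_finset T
  have h1 : E hl (val hl (sg x)) (val hl (nchk sg 𝒳)) := (E_nchk_c disj_sg).2 hx
  have h2 : E hl (val hl (rl x)) (val hl (sg x)) :=
    E_nchk_finset.2 ⟨x, Finset.mem_singleton_self x, rfl⟩
  exact hxT ((E_nchk_c disj_rl).1 (h _ h1 _ h2))

end TKF
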