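import Pool.Agent.W_8dd142_h88.Real
import Pool.Agent.W_8dd142_h88.Kill2

/-!
# The generic ultrafilters and the generic map (MP_8dd142_lc)
-/

namespace TKF

open IM IM.BSet BVM
open Pool.MP_8dd142_lc.W Node

/-- `A` belongs to the root ultrafilter of `p`. -/
def InU (A : Set ℕ) (p : Cond) : Prop := A ∈ p.1.B ∧ root ∈ p.1.φ A

/-- `A` belongs to the root ultrafilter of `p` and its image is `B`. -/
def InF (A B : Set ℕ) (p : Cond) : Prop := InU A p ∧ p.1.f A = B

/-- Some element of the root ultrafilter of `p` has image contained in `C`. -/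
def InV (C : Set ℕ) (p : Cond) : Prop := ∃ A, InU A p ∧ p.1.f A ⊆ C

theorem InU.mono {A : Set ℕ} {p q : Cond} (h : InU A p) (hq : q ≤ p) : InU A q :=
  ⟨Sys.Ext.B hq h.1, (Sys.Ext.root_iff hq h.1).2 h.2⟩

theorem InU.f_eq {A : Set ℕ} {p q : Cond} (h : InU A p) (hq : q ≤ p) : q.1.f A = p.1.f A :=
  Sys.Ext.f_eq hq h.1

theorem InF.mono {A B : Set ℕ} {p q : Cond} (h : InF A B p) (hq : q ≤ p) : InF A B q :=
  ⟨h.1.mono hq, by rw [h.1.f_eq hq]; exact h.2⟩

theorem InV.mono {C : Set ℕ} {p q : Cond} (h : InV C p) (hq : q ≤ p) : InV C q := by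
  obtain ⟨A, hA, hAC⟩ := h
  exact ⟨A, hA.mono hq, by rw [hA.f_eq hq]; exact hAC⟩

noncomputable def uU (A : Set ℕ) : RO Cond := tvp (InU A)
noncomputable def uF (A B : Set ℕ) : RO Cond := tvp (InF A B)
noncomputable def uV (C : Set ℕ) : RO Cond := tvp (InV C)

theorem gen_le_uU {A : Set ℕ} {p : Cond} : gen p ≤ uU A ↔ ∀ q ≤ p, ∃ r ≤ q, InU A r :=
  gen_le_tvp_iff fun _ _ h hq => h.mono hq

theorem gen_le_uF {A B : Set ℕ} {p : Cond} : gen p ≤ uF A B ↔ ∀ q ≤ p, ∃ r ≤ q, InF A B r :=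
  gen_le_tvp_iff fun _ _ h hq => h.mono hq

theorem gen_le_uV {A : Set ℕ} {p : Cond} : gen p ≤ uV A ↔ ∀ q ≤ p, ∃ r ≤ q, InV A r :=
  gen_le_tvp_iff fun _ _ h hq => h.mono hq

/-- Every set can be added to the algebra of a condition. -/
theorem exists_decide (p : Cond) (A : Set ℕ) : ∃ q ≤ p, A ∈ q.1.B := by
  obtain ⟨S', h1, h2, h3⟩ := p.1.step_decide p.2 A
  exact ⟨⟨S', h2⟩, h1, h3⟩

theorem InU.of_subset {A B : Set ℕ} {p : Cond} (h : InU A p) (hB : B ∈ p.1.B) (hAB : A ⊆ B) :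
    InU B p := ⟨hB, p.1.φ_mono h.1 hB hAB h.2⟩

theorem inU_univ (p : Cond) : InU Set.univ p :=
  ⟨p.1.univ_mem, by rw [p.1.φ_univ]; exact p.1.root_mem⟩

theorem not_inU_empty (p : Cond) : ¬ InU ∅ p := by
  rintro ⟨_, h⟩
  rw [p.1.φ_empty] at h
  exact h

theorem InU.inter {A B : Set ℕ} {p : Cond} (h : InU A p) (h' : InU B p) : InU (A ∩ B) p :=
  ⟨p.1.inter_mem A h.1 B h'.1, (p.1.mem_φ_inter h.1 h'.1).2 ⟨h.2, h'.2⟩⟩

theorem InU.f_nonempty {A : Set ℕ} {p : Cond} (h : InU A p) : (p.1.f A).Nonempty :=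
  (p.1.pts_infinite h.1 h.2).nonempty

theorem InU.f_inter {A B : Set ℕ} {p : Cond} (h : InU A p) (h' : InU B p) :
    p.1.f (A ∩ B) ⊆ p.1.f A ∩ p.1.f B := by
  intro y hy
  exact (p.1.mem_φ_inter h.1 h'.1).1 hy

/-- The name of the generic ultrafilter. -/
noncomputable def nU : BSet (RO Cond) := nsub rl uU

/-- The name of its image. -/
noncomputable def nV : BSet (RO Cond) := nsub rl uV

/-- The name of the generic map. -/
noncomputable def nF : BSet (RO Cond) := nrel rl rl uF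

variable {lam : RO Cond → Prop} (hl : IsUF lam)

include hl

theorem isUltra_U : IsUltra (E hl) (val hl (omB _)) (val hl nU) := by
  refine isUltra_nsub cond_sigma uU ?_ ?_ ?_ ?_ ?_ hl
  · rw [eq_top_iff]
    exact le_of_gen fun p _ => gen_le_tvp (inU_univ p)
  · rw [eq_bot_iff]
    refine le_of_gen fun p hp => ?_
    obtain ⟨r, _, hr⟩ := gen_le_uU.1 hp p (le_refl p)
    exact absurd hr (not_inU_empty r)
  · intro A B hAB
    refine le_of_gen_dense fun p hp => ?_
    obtain ⟨q, hq, hA⟩ := gen_le_uU.1 hp p (le_refl p)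
    obtain ⟨r, hr, hB⟩ := exists_decide q B
    exact ⟨r, hr.trans hq, gen_le_tvp ((hA.mono hr).of_subset hB hAB)⟩
  · intro A B
    refine le_of_gen_dense fun p hp => ?_
    obtain ⟨q, hq, hA⟩ := gen_le_uU.1 (hp.trans inf_le_left) p (le_refl p)
    obtain ⟨r, hr, hB⟩ := gen_le_uU.1 (hp.trans inf_le_right) q hq
    exact ⟨r, hr.trans hq, gen_le_tvp ((hA.mono hr).inter hB)⟩
  · intro A
    rw [eq_top_iff]
    refine le_of_gen_dense fun p _ => ?_
    obtain ⟨q, hq, hA⟩ := exists_decide p A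
    refine ⟨q, hq, ?_⟩
    by_cases h : root ∈ q.1.φ A
    · exact (gen_le_tvp ⟨hA, h⟩).trans le_sup_left
    · refine le_trans (gen_le_tvp ⟨q.1.compl_mem A hA, ?_⟩) le_sup_right
      exact (q.1.mem_φ_compl hA q.1.root_mem).2 h

theorem isUltra_V : IsUltra (E hl) (val hl (omB _)) (val hl nV) := by
  refine isUltra_nsub cond_sigma uV ?_ ?_ ?_ ?_ ?_ hl
  · rw [eq_top_iff]
    exact le_of_gen fun p _ => gen_le_tvp ⟨Set.univ, inU_univ p, Set.subset_univ _⟩
  · rw [eq_bot_iff]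
    refine le_of_gen fun p hp => ?_
    obtain ⟨r, _, A, hA, hr⟩ := gen_le_uV.1 hp p (le_refl p)
    obtain ⟨y, hy⟩ := hA.f_nonempty
    exact absurd (hr hy) (Set.notMem_empty y)
  · intro A B hAB
    refine le_of_gen_dense fun p hp => ?_
    obtain ⟨q, hq, C, hC, hCA⟩ := gen_le_uV.1 hp p (le_refl p)
    exact ⟨q, hq, gen_le_tvp ⟨C, hC, hCA.trans hAB⟩⟩
  · intro A B
    refine le_of_gen_dense fun p hp => ?_
    obtain ⟨q, hq, hA⟩ := gen_le_uV.1 (hp.trans inf_le_left) p (le_refl p)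
    obtain ⟨r, hr, C, hC, hCB⟩ := gen_le_uV.1 (hp.trans inf_le_right) q hq
    obtain ⟨C', hC', hCA⟩ := hA.mono hr
    refine ⟨r, hr.trans hq, gen_le_tvp ⟨C' ∩ C, hC'.inter hC, fun y hy => ?_⟩⟩
    have := hC'.f_inter hC hy
    exact ⟨hCA this.1, hCB this.2⟩
  · intro A
    rw [eq_top_iff]
    refine le_of_gen_dense fun p _ => ?_
    obtain ⟨S', h1, h2, X, hX, hr, h3 | h3⟩ := p.1.step_points p.2 A
    · exact ⟨⟨S', h2⟩, h1, (gen_le_tvp ⟨X, ⟨hX, hr⟩, h3⟩).trans le_sup_left⟩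
    · exact ⟨⟨S', h2⟩, h1, (gen_le_tvp ⟨X, ⟨hX, hr⟩, h3⟩).trans le_sup_right⟩

theorem E_U {A : Set ℕ} : E hl (val hl (rl A)) (val hl nU) ↔ lam (uU A) := E_nsub_c disj_rl

theorem E_V {A : Set ℕ} : E hl (val hl (rl A)) (val hl nV) ↔ lam (uV A) := E_nsub_c disj_rl

theorem app_F {A B : Set ℕ} :
    App (E hl) (val hl nF) (val hl (rl A)) (val hl (rl B)) ↔ lam (uF A B) :=
  app_nrel disj_rl disj_rl

theorem U_real {x : X hl} (h : E hl x (val hl nU)) : Sub (E hl) x (val hl (omB _)) :=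
  (E_nall_rl cond_sigma).1 (nsub_sub_nall x h)

theorem V_real {x : X hl} (h : E hl x (val hl nV)) : Sub (E hl) x (val hl (omB _)) :=
  (E_nall_rl cond_sigma).1 (nsub_sub_nall x h)

omit hl in
theorem uF_le {A B : Set ℕ} : uF A B ≤ uU A ⊓ uV B := by
  refine le_of_gen_dense fun p hp => ?_
  obtain ⟨q, hq, h⟩ := gen_le_uF.1 hp p (le_refl p)
  exact ⟨q, hq, le_inf (gen_le_tvp h.1) (gen_le_tvp ⟨A, h.1, h.2.subset⟩)⟩

theorem common_uF {A A' B B' : Set ℕ} (h : lam (uF A A')) (h' : lam (uF B B')) :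
    ∃ p : Cond, InF A A' p ∧ InF B B' p := by
  obtain ⟨p, hp⟩ := exists_gen (a := uF A A' ⊓ uF B B') (by
    intro h0
    apply hl.bot
    rw [← h0]
    exact hl.inf h h')
  obtain ⟨q, hq, h1⟩ := gen_le_uF.1 (hp.trans inf_le_left) p (le_refl p)
  obtain ⟨r, hr, h2⟩ := gen_le_uF.1 (hp.trans inf_le_right) q hq
  exact ⟨r, h1.mono hr, h2⟩

/-- The elements of the generic map. -/
theorem F_mem {x y : X hl} (h : App (E hl) (val hl nF) x y) :
    E hl x (val hl nU) ∧ E hl y (val hl nV) := by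
  obtain ⟨p, hp, hpF⟩ := h
  have h1 : E hl p (val hl (nall fun i : Set ℕ × Set ℕ => prB (rl i.1) (rl i.2))) :=
    nsub_sub_nall (c := fun i : Set ℕ × Set ℕ => prB (rl i.1) (rl i.2))
      (w := fun i : Set ℕ × Set ℕ => uF i.1 i.2) p hpF
  obtain ⟨p, rfl⟩ := exists_name p
  rw [E_nall] at h1
  refine mix' (Q := fun _ E v => ∀ x y, IsPair E (v 0) x y → E (v 0) (v 1) →
      E x (v 2) ∧ E y (v 3)) (v := ps [nF, nU, nV])
    (by repeat' (with_reducible first | apply IsPair.fo | apply FO.mem | apply FO.and | apply FO.imp | apply FO.all))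
    ?_ hl h1 x y hp hpF
  intro i lam hl x y hp hpF
  obtain ⟨x, rfl⟩ := exists_name x
  obtain ⟨y, rfl⟩ := exists_name y
  obtain ⟨h2, h3⟩ := prB_inj (isPair_val.1 hp)
  have h4 : lam (uF i.1 i.2) := by
    rw [← app_F hl, app_val]
    exact hpF
  have h5 := hl.inf_iff.1 (hl.mono uF_le h4)
  change E hl (val hl x) (val hl nU) ∧ E hl (val hl y) (val hl nV)
  rw [← h2, ← h3, E_U, E_V]
  exact h5

theorem F_pair {p : X hl} (h : E hl p (val hl nF)) : ∃ x y, IsPair (E hl) p x y := by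
  have h1 : E hl p (val hl (nall fun i : Set ℕ × Set ℕ => prB (rl i.1) (rl i.2))) :=
    nsub_sub_nall (c := fun i : Set ℕ × Set ℕ => prB (rl i.1) (rl i.2))
      (w := fun i : Set ℕ × Set ℕ => uF i.1 i.2) p h
  obtain ⟨p, rfl⟩ := exists_name p
  rw [E_nall] at h1
  refine mix' (Q := fun _ E v => ∃ x y, IsPair E (v 0) x y) (v := ps [])
    (by repeat' (with_reducible first | apply IsPair.fo | apply FO.ex))
    ?_ hl h1
  intro i lam hl
  exact ⟨val hl (rl i.1), val hl (rl i.2), isPair_val.2 rfl⟩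

/-- The values of the generic map below a condition. -/
theorem F_val {A : Set ℕ} {p : Cond} (hA : InU A p) (hp : lam (gen p)) {y : X hl} :
    App (E hl) (val hl nF) (val hl (rl A)) y ↔ y = val hl (rl (p.1.f A)) := by
  have key : ∀ (lam : RO Cond → Prop) (hl : IsUF lam), lam (gen p) →
      App (E hl) (val hl nF) (val hl (rl A)) (val hl (rl (p.1.f A))) := by
    intro lam hl hp
    rw [app_F]
    exact hl.mono (gen_le_tvp ⟨hA, rfl⟩) hp
  constructor
  · intro h
    refine real_all cond_sigma (Q := fun _ E v => App E (v 1) (v 2) (v 0) → v 0 = v 3)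
      (v := ps [nF, rl A, rl (p.1.f A)]) ((App.fo 1 2 0).imp (FO.eq 0 3)) (gen p) ?_ hl hp
      (V_real hl (F_mem hl h).2) h
    intro B lam hl hp hB
    have h1 := (app_F hl).1 (key lam hl hp)
    have h2 := (app_F hl).1 hB
    obtain ⟨q, hq1, hq2⟩ := common_uF hl h1 h2
    change val hl (rl B) = val hl (rl (p.1.f A))
    rw [← hq1.2, ← hq2.2]
  · rintro rfl
    exact key lam hl hp

theorem isMap_F : IsMap (E hl) (val hl nF) (val hl nU) (val hl nV) := by
  refine ⟨fun p hp => ?_, fun x hx => ?_⟩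
  · obtain ⟨x, y, hxy⟩ := F_pair hl hp
    have := F_mem hl ⟨p, hxy, hp⟩
    exact ⟨x, y, hxy, this.1, this.2⟩
  · refine real_all' cond_sigma (Q := fun _ E v => E (v 0) (v 1) → ∃ y, App E (v 2) (v 0) y ∧
      ∀ y', App E (v 2) (v 0) y' → y' = y) (v := ps [nU, nF])
      (by repeat' (with_reducible first | apply App.fo | apply FO.mem | apply FO.eq | apply FO.and | apply FO.imp | apply FO.all | apply FO.ex))
      ?_ hl (U_real hl hx) hx
    intro A lam hl hA
    -- the statement is forced by every condition which has `A` in its ultrafilter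
    let Q : ∀ X : Type 2, (X → X → Prop) → (ℕ → X) → Prop := fun _ E v =>
      ∃ y, App E (v 1) (v 0) y ∧ ∀ y', App E (v 1) (v 0) y' → y' = y
    have hQ : FO Q := by
      repeat' (with_reducible first | apply App.fo | apply FO.mem | apply FO.eq | apply FO.and | apply FO.imp | apply FO.all | apply FO.ex)
    have h1 : uU A ≤ tvq hQ (ps [rl A, nF]) := by
      refine le_of_gen_dense fun p hp => ?_
      obtain ⟨q, hq, hA⟩ := gen_le_uU.1 hp p (le_refl p)
      refine ⟨q, hq, ?_⟩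
      rw [le_iff_uf]
      intro lam hl hlam
      rw [tvq_iff hQ _ hl]
      exact ⟨val hl (rl (q.1.f A)), (F_val hl hA hlam).2 rfl, fun y' hy' =>
        (F_val hl hA hlam).1 hy'⟩
    exact (tvq_iff hQ _ hl).1 (hl.mono h1 ((E_U hl).1 hA))

theorem isMono_F : IsMono (E hl) (val hl nF) := by
  intro x x' y y' hx hy hxy
  have hx1 := F_mem hl hx
  have hy1 := F_mem hl hy
  refine real_all' cond_sigma (Q := fun _ E v => ∀ x', Sub E x' (v 2) → ∀ y, Sub E y (v 2) →
      ∀ y', Sub E y' (v 2) → App E (v 1) (v 0) x' → App E (v 1) y y' → Sub E (v 0) y → Sub E x' y')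
    (v := ps [nF, omB _])
    (by repeat' (with_reducible first | apply App.fo | apply Sub.fo | apply FO.imp | apply FO.all))
    ?_ hl (U_real hl hx1.1) x' (V_real hl hx1.2) y (U_real hl hy1.1) y' (V_real hl hy1.2) hx hy hxy
  clear hx hy hxy hx1 hy1 x x' y y'
  intro A lam hl x' hx' y hy y' hy' h1 h2 h3
  refine real_all' cond_sigma (Q := fun _ E v => ∀ y, Sub E y (v 2) →
      ∀ y', Sub E y' (v 2) → App E (v 1) (v 3) (v 0) → App E (v 1) y y' → Sub E (v 3) y →
      Sub E (v 0) y')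
    (v := ps [nF, omB _, rl A])
    (by repeat' (with_reducible first | apply App.fo | apply Sub.fo | apply FO.imp | apply FO.all))
    ?_ hl hx' y hy y' hy' h1 h2 h3
  clear h1 h2 h3 hx' hy hy' x' y y'
  intro A' lam hl y hy y' hy' h1 h2 h3
  refine real_all' cond_sigma (Q := fun _ E v =>
      ∀ y', Sub E y' (v 2) → App E (v 1) (v 3) (v 4) → App E (v 1) (v 0) y' → Sub E (v 3) (v 0) →
      Sub E (v 4) y')
    (v := ps [nF, omB _, rl A, rl A'])
    (by repeat' (with_reducible first | apply App.fo | apply Sub.fo | apply FO.imp | apply FO.all))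
    ?_ hl hy y' hy' h1 h2 h3
  clear h1 h2 h3 hy hy' y y'
  intro B lam hl y' hy' h1 h2 h3
  refine real_all' cond_sigma (Q := fun _ E v => App E (v 1) (v 2) (v 3) →
      App E (v 1) (v 4) (v 0) → Sub E (v 2) (v 4) → Sub E (v 3) (v 0))
    (v := ps [nF, rl A, rl A', rl B])
    (by repeat' (with_reducible first | apply App.fo | apply Sub.fo | apply FO.imp | apply FO.all))
    ?_ hl hy' h1 h2 h3
  clear h1 h2 h3 hy' y'
  intro B' lam hl h1 h2 h3
  obtain ⟨p, hp1, hp2⟩ := common_uF hl ((app_F hl).1 h1) ((app_F hl).1 h2)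
  refine (nchk_sub_iff disj_natB).2 ?_
  rw [← hp1.2, ← hp2.2]
  exact p.1.f_mono hp1.1.1 hp2.1.1 ((nchk_sub_iff disj_natB).1 h3)

/-- The images form a base of `V`. -/
theorem V_base {z : X hl} (hz : E hl z (val hl nV)) :
    ∃ x x', App (E hl) (val hl nF) x x' ∧ Sub (E hl) x' z := by
  refine real_all' cond_sigma (Q := fun _ E v => E (v 0) (v 1) → ∃ x x', App E (v 2) x x' ∧
    Sub E x' (v 0)) (v := ps [nV, nF])
    (by repeat' (with_reducible first | apply App.fo | apply Sub.fo | apply FO.mem | apply FO.and | apply FO.imp | apply FO.ex))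
    ?_ hl (V_real hl hz) hz
  intro C lam hl hC
  let Q : ∀ X : Type 2, (X → X → Prop) → (ℕ → X) → Prop := fun _ E v =>
    ∃ x x', App E (v 1) x x' ∧ Sub E x' (v 0)
  have hQ : FO Q := by
    repeat' (with_reducible first | apply App.fo | apply Sub.fo | apply FO.mem | apply FO.and | apply FO.imp | apply FO.ex)
  have h1 : uV C ≤ tvq hQ (ps [rl C, nF]) := by
    refine le_of_gen_dense fun p hp => ?_
    obtain ⟨q, hq, A, hA, hAC⟩ := gen_le_uV.1 hp p (le_refl p)
    refine ⟨q, hq, ?_⟩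
    rw [le_iff_uf]
    intro lam hl hlam
    rw [tvq_iff hQ _ hl]
    exact ⟨val hl (rl A), val hl (rl (q.1.f A)), (F_val hl hA hlam).2 rfl,
      (nchk_sub_iff disj_natB).2 hAC⟩
  exact (tvq_iff hQ _ hl).1 (hl.mono h1 ((E_V hl).1 hC))

theorem isMonCofinal_F : IsMonCofinal (E hl) (val hl nF) (val hl nU) (val hl nV) := by
  refine ⟨isMap_F hl, isMono_F hl, fun B hB z hz => ?_⟩
  obtain ⟨x, x', hx, hx'⟩ := V_base hl hz
  obtain ⟨y, hy, hyx⟩ := hB.2 x (F_mem hl hx).1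
  obtain ⟨y', hy', _⟩ := (isMap_F hl).2 y (hB.1 y hy)
  exact ⟨y, y', hy, hy', fun n hn => hx' n (isMono_F hl y y' x x' hy' hx hyx n hn)⟩

end TKF
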